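import Pool.Agent.H13.L.S8.W656.VA9

/-!
Base change, part 1: window dimensions, amplification and cuts.
-/

set_option autoImplicit false
set_option linter.unusedSectionVars false

open scoped InnerProductSpace ENNReal
open Filter Topology

namespace Pool.Agent.W656.VA

open Pool.Agent.H80R2
open Pool.Agent.H80R2.BC (L2 GMat vdim IsTr LInv Equi act kerA dk pt vals TorDiv Coef AtR Generic)
open Pool.Agent.H812R3

variable {ι κ κ' μ ν G G' : Type} [Group G] [Group G'] [Fintype ι] [Fintype κ] [Fintype κ']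
  [Fintype μ] [Fintype ν]

theorem op_sc (L : (μ → ℂ) →ₗ[ℂ] (ν → ℂ)) (x : L2 ((ι × μ) × G)) (p : ι) (n : ν) (g : G) :
    op (sc ι G L) x ((p, n), g) = L (fun i => x ((p, i), g)) n := by
  rw [op_apply, act_sc]

theorem isClosed_fd (A : GMat κ (ι × μ) G) (Φ : Submodule ℂ (μ → ℂ)) :
    IsClosed ((kerA A ⊓ pt Φ : Submodule ℂ (L2 ((ι × μ) × G))) : Set (L2 ((ι × μ) × G))) :=
  isClosed_inf (isClosed_kerA A) (isClosed_pt Φ)

theorem linv_fd (A : GMat κ (ι × μ) G) (Φ : Submodule ℂ (μ → ℂ)) :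
    LInv (kerA A ⊓ pt Φ : Submodule ℂ (L2 ((ι × μ) × G))) :=
  linv_inf (linv_kerA A) (linv_pt Φ)

theorem fd_mono (A : GMat κ (ι × μ) G) {Φ Ψ : Submodule ℂ (μ → ℂ)} (h : Φ ≤ Ψ) :
    fd A Φ ≤ fd A Ψ := vdim_mono (inf_le_inf_left _ (pt_mono h))

theorem fd_nonneg (A : GMat κ (ι × μ) G) (Φ : Submodule ℂ (μ → ℂ)) : 0 ≤ fd A Φ := vdim_nonneg _

theorem pt_bot : (pt ⊥ : Submodule ℂ (L2 ((ι × μ) × G))) = ⊥ := by
  rw [eq_bot_iff]
  intro x hx
  rw [Submodule.mem_bot]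
  ext ⟨⟨p, i⟩, g⟩
  exact congrFun ((Submodule.mem_bot ℂ).1 (hx p g)) i

theorem pt_top : (pt ⊤ : Submodule ℂ (L2 ((ι × μ) × G))) = ⊤ := by
  rw [eq_top_iff]
  intro x _ p g
  trivial

theorem fd_bot (A : GMat κ (ι × μ) G) : fd A ⊥ = 0 := by
  unfold fd
  rw [pt_bot, inf_bot_eq, vdim_bot]

theorem fd_top (A : GMat κ (ι × μ) G) : fd A ⊤ = vdim (kerA A) := by
  unfold fd
  rw [pt_top, inf_top_eq]

theorem fd_super (A : GMat κ (ι × μ) G) (Φ Ψ : Submodule ℂ (μ → ℂ)) :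
    fd A Φ + fd A Ψ ≤ fd A (Φ ⊓ Ψ) + fd A (Φ ⊔ Ψ) := by
  have h := vdim_super (isClosed_fd A Φ) (linv_fd A Φ) (isClosed_fd A Ψ) (linv_fd A Ψ)
    (isClosed_fd A (Φ ⊔ Ψ)) (inf_le_inf_left _ (pt_mono le_sup_left))
    (inf_le_inf_left _ (pt_mono le_sup_right))
  have e : (kerA A ⊓ pt Φ) ⊓ (kerA A ⊓ pt Ψ) = kerA A ⊓ pt (Φ ⊓ Ψ) := by
    ext x
    simp only [Submodule.mem_inf, mem_pt]
    constructor
    · rintro ⟨⟨h1, h2⟩, _, h3⟩
      exact ⟨h1, fun p g => ⟨h2 p g, h3 p g⟩⟩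
    · rintro ⟨h1, h2⟩
      exact ⟨⟨h1, fun p g => (h2 p g).1⟩, h1, fun p g => (h2 p g).2⟩
  rw [e] at h
  exact h

/-- rank-nullity for scalar maps -/
theorem fd_rank (A : GMat κ (ι × μ) G) (B : GMat κ' (ι × ν) G) (L : (μ → ℂ) →ₗ[ℂ] (ν → ℂ))
    (Φ : Submodule ℂ (μ → ℂ))
    (h : ∀ x ∈ kerA A ⊓ (pt Φ : Submodule ℂ (L2 ((ι × μ) × G))), op (sc ι G L) x ∈ kerA B) :
    fd A Φ ≤ fd A (Φ ⊓ LinearMap.ker L) + fd B (Φ.map L) := by
  have h1 := vdim_rank_le (isClosed_fd A Φ) (linv_fd A Φ) (op (sc ι G L)) (equi_op _)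
    (isClosed_fd B (Φ.map L)) (by
      intro x hx
      refine ⟨h x hx, fun p g => ?_⟩
      refine ⟨fun i => x ((p, i), g), hx.2 p g, ?_⟩
      funext n
      rw [op_sc])
  have e : (kerA A ⊓ pt Φ) ⊓ kr (op (sc ι G L)) = kerA A ⊓ pt (Φ ⊓ LinearMap.ker L) := by
    ext x
    simp only [Submodule.mem_inf, mem_pt, mem_kr, LinearMap.mem_ker]
    constructor
    · rintro ⟨⟨h1, h2⟩, h3⟩
      refine ⟨h1, fun p g => ⟨h2 p g, ?_⟩⟩
      funext n
      rw [← op_sc, h3]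
      rfl
    · rintro ⟨h1, h2⟩
      refine ⟨⟨h1, fun p g => (h2 p g).1⟩, ?_⟩
      ext ⟨⟨p, n⟩, g⟩
      rw [op_sc, (h2 p g).2]
      rfl
  rw [e] at h1
  exact h1

theorem finrank_rank (L : (μ → ℂ) →ₗ[ℂ] (ν → ℂ)) (Φ : Submodule ℂ (μ → ℂ)) :
    Module.finrank ℂ Φ = Module.finrank ℂ (Φ ⊓ LinearMap.ker L : Submodule ℂ (μ → ℂ)) +
      Module.finrank ℂ (Φ.map L) := by
  have h := LinearMap.finrank_range_add_finrank_ker (L.domRestrict Φ)
  have e1 : LinearMap.range (L.domRestrict Φ) = Φ.map L := by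
    rw [LinearMap.range_domRestrict]
  have e2 : Module.finrank ℂ (LinearMap.ker (L.domRestrict Φ)) =
      Module.finrank ℂ (Φ ⊓ LinearMap.ker L : Submodule ℂ (μ → ℂ)) := by
    rw [LinearMap.ker_domRestrict]
    have : (Submodule.comap Φ.subtype (LinearMap.ker L)).map Φ.subtype = Φ ⊓ LinearMap.ker L := by
      rw [Submodule.map_comap_subtype]
    rw [← this]
    exact (Submodule.finrank_map_subtype_eq _ _).symm
  rw [e1, e2] at h
  omega

/-- injections between kernels with conditions -/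
theorem fd_le_of_inj (A : GMat κ (ι × μ) G) (B : GMat κ' (ι × ν) G)
    (L : (μ → ℂ) →ₗ[ℂ] (ν → ℂ)) (Φ : Submodule ℂ (μ → ℂ)) (Ψ : Submodule ℂ (ν → ℂ))
    (h : ∀ x ∈ kerA A ⊓ (pt Φ : Submodule ℂ (L2 ((ι × μ) × G))), op (sc ι G L) x ∈ kerA B)
    (hΨ : Φ.map L ≤ Ψ) (hL : ∀ φ ∈ Φ, L φ = 0 → φ = 0) : fd A Φ ≤ fd B Ψ := by
  have h1 := fd_rank A B L Φ h
  have h2 : Φ ⊓ LinearMap.ker L = ⊥ := by
    rw [eq_bot_iff]
    rintro φ ⟨h3, h4⟩
    exact hL φ h3 h4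
  rw [h2, fd_bot, zero_add] at h1
  exact h1.trans (fd_mono B hΨ)

/-! ### amplification -/

/-- `N` copies of a system -/
noncomputable def am (N : ℕ) (A : GMat κ (ι × μ) G) : GMat (κ × Fin N) ((ι × Fin N) × μ) G :=
  fun a p => if a.2 = p.1.2 then A a.1 (p.1.1, p.2) else 0

theorem inj_am (N : ℕ) (n : Fin N) :
    Function.Injective (fun p : (ι × μ) × G => (((p.1.1, n), p.1.2), p.2)) := by
  rintro ⟨⟨a, b⟩, c⟩ ⟨⟨a', b'⟩, c'⟩ h
  simpa using h

/-- the `n`-th copy -/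
noncomputable def cp (N : ℕ) (n : Fin N) :
    L2 (((ι × Fin N) × μ) × G) →L[ℂ] L2 ((ι × μ) × G) :=
  KP.pull (fun p : (ι × μ) × G => (((p.1.1, n), p.1.2), p.2)) (inj_am N n)

theorem cp_apply (N : ℕ) (n : Fin N) (x : L2 (((ι × Fin N) × μ) × G)) (p : ι) (i : μ) (g : G) :
    cp N n x ((p, i), g) = x (((p, n), i), g) := rfl

theorem act_am (N : ℕ) (A : GMat κ (ι × μ) G) (x : L2 (((ι × Fin N) × μ) × G)) (k : κ)
    (n : Fin N) (g : G) : act (am N A) x (k, n) g = act A (cp N n x) k g := by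
  unfold act am
  rw [Fintype.sum_prod_type, Fintype.sum_prod_type, Fintype.sum_prod_type]
  refine Finset.sum_congr rfl fun p _ => ?_
  rw [Finset.sum_eq_single n]
  · refine Finset.sum_congr rfl fun i _ => ?_
    simp only [if_true]
    rfl
  · intro m _ hm
    refine Finset.sum_eq_zero fun i _ => ?_
    simp only
    rw [if_neg (fun h => hm h.symm)]
    simp
  · intro h
    exact absurd (Finset.mem_univ _) h

theorem mem_am_iff (N : ℕ) (A : GMat κ (ι × μ) G) (x : L2 (((ι × Fin N) × μ) × G)) :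
    x ∈ kerA (am N A) ↔ ∀ n, cp N n x ∈ kerA A := by
  constructor
  · intro h n k g
    rw [← act_am]
    exact h (k, n) g
  · rintro h ⟨k, n⟩ g
    rw [act_am]
    exact h n k g

theorem fd_am (N : ℕ) (A : GMat κ (ι × μ) G) (Φ : Submodule ℂ (μ → ℂ)) :
    fd (am N A) Φ = N * fd A Φ := by
  obtain ⟨u, hu, hu2, hu3⟩ := exists_vec (isClosed_fd A Φ)
  unfold fd
  rw [hu3, vdim_of_vec (isClosed_fd (am N A) Φ)
    (fun a => KP.push _ (inj_am N a.1.2) (u (a.1.1, a.2)))]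
  · rw [Fintype.sum_prod_type, Fintype.sum_prod_type, Fintype.sum_prod_type]
    have : ∀ (p : ι) (n : Fin N), ∑ i : μ, ((KP.push _ (inj_am N n) (u (p, i)) :
        L2 (((ι × Fin N) × μ) × G)) (((p, n), i), 1)).re = ∑ i : μ, ((u (p, i)) ((p, i), 1)).re := by
      intro p n
      refine Finset.sum_congr rfl fun i _ => ?_
      rw [pushL_apply _ (inj_am N n) (u (p, i)) ((p, i), 1)]
    simp only [this]
    simp [Finset.mul_sum]
  · rintro ⟨⟨p, n⟩, i⟩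
    have e1 : ∀ m, m ≠ n → cp N m (KP.push _ (inj_am N n) (u (p, i))) = 0 := by
      intro m hm
      ext ⟨⟨q, j⟩, g⟩
      exact pushL_apply_ne _ (inj_am N n) _ _ (by
        rintro ⟨⟨a, b⟩, c⟩ h
        simp only [Prod.mk.injEq] at h
        exact hm h.1.1.2.symm)
    have e2 : cp N n (KP.push _ (inj_am N n) (u (p, i))) = u (p, i) := by
      ext a
      exact pushL_apply _ (inj_am N n) (u (p, i)) a
    have e3 : ∀ m, cp N m (KP.push _ (inj_am N n) (u (p, i))) ∈ kerA A ⊓ pt Φ := by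
      intro m
      by_cases hm : m = n
      · subst hm
        rw [e2]
        exact hu _
      · rw [e1 m hm]
        exact Submodule.zero_mem _
    refine ⟨(mem_am_iff N A _).2 fun m => (e3 m).1, ?_⟩
    rintro ⟨q, m⟩ g
    exact (e3 m).2 q g
  · rintro ⟨⟨p, n⟩, i⟩ x hx
    rw [KP.push, ContinuousLinearMap.adjoint_inner_left]
    have h1 : cp N n x ∈ kerA A ⊓ pt Φ :=
      ⟨(mem_am_iff N A x).1 hx.1 n, fun q g => hx.2 (q, n) g⟩
    exact hu2 (p, i) _ h1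

/-! ### cuts -/

/-- the size of the free group used in the cut -/
noncomputable def ctm (ι : Type) [Fintype ι] (N j : ℕ) : ℕ := Fintype.card ((ι × Fin N) × Fin j)

/-- the bigger group -/
abbrev ctG (G : Type) [Group G] (ι : Type) [Fintype ι] (N j : ℕ) : Type :=
  Monoid.Coprod G (FreeGroup (Fin (ctm ι N j)))

/-- the generic elements -/
noncomputable def ctu (G : Type) [Group G] (ι : Type) [Fintype ι] (N j : ℕ) :
    (ι × Fin N) → Fin j → ctG G ι N j := fun p q =>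
  (Monoid.Coprod.inr : FreeGroup (Fin (ctm ι N j)) →* ctG G ι N j)
    (FreeGroup.of (Fintype.equivFin ((ι × Fin N) × Fin j) (p, q)))

/-- `N` copies with `j` generic conditions -/
noncomputable def ct (N j : ℕ) (A : GMat κ (ι × μ) G) :
    GMat ((κ × Fin N) ⊕ (Fin j × μ)) ((ι × Fin N) × μ) (ctG G ι N j) :=
  BC.Cut (Monoid.Coprod.inl : G →* ctG G ι N j) (ctu G ι N j) (am N A)

theorem generic_ctu (N j : ℕ) :
    Generic (Monoid.Coprod.inl : G →* ctG G ι N j) (ctu G ι N j) :=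
  BC.generic_coprod G (ctm ι N j) (Fintype.equivFin ((ι × Fin N) × Fin j))

theorem inl_inj (N j : ℕ) : Function.Injective (Monoid.Coprod.inl : G →* ctG G ι N j) :=
  Monoid.Coprod.inl_injective

theorem coef_am {R : Subring ℂ} (N : ℕ) {A : GMat κ (ι × μ) G} (hA : Coef R A) :
    Coef R (am N A) := by
  intro k i h
  unfold am
  split_ifs
  · exact hA _ _ _
  · exact R.zero_mem

theorem coef_ct {R : Subring ℂ} (N j : ℕ) {A : GMat κ (ι × μ) G} (hA : Coef R A) :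
    Coef R (ct N j A) := coef_Cut _ _ (coef_am N hA)

theorem ct_ge (N j : ℕ) (A : GMat κ (ι × μ) G) (Φ : Submodule ℂ (μ → ℂ)) :
    N * fd A Φ - j * Module.finrank ℂ Φ ≤ fd (ct N j A) Φ := by
  have h := cut_ge (Monoid.Coprod.inl : G →* ctG G ι N j) (inl_inj N j) (ctu G ι N j) (am N A) Φ
  rw [fd_am, Fintype.card_fin] at h
  exact h

theorem ct_eq (N j : ℕ) (A : GMat κ (ι × μ) G) (Φ : Submodule ℂ (μ → ℂ)) :
    fd (ct N j A) Φ = N * fd A (vals (kerA (ct N j A) ⊓ pt Φ)) -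
      j * Module.finrank ℂ (vals (kerA (ct N j A) ⊓ pt Φ)) := by
  set A' := BC.stack (am N A) (cs (ι × Fin N) G Φ) with hA'
  have h := cut_eq (Monoid.Coprod.inl : G →* ctG G ι N j) (inl_inj N j) (ctu G ι N j)
    (generic_ctu N j) A'
  have e : kerA (BC.Cut (Monoid.Coprod.inl : G →* ctG G ι N j) (ctu G ι N j) A') =
      kerA (ct N j A) ⊓ pt Φ := by
    ext x
    rw [mem_cut_iff, Submodule.mem_inf, hA', mem_push_cs _ (inl_inj N j)]
    unfold ct
    rw [mem_cut_iff]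
    tauto
  rw [e, Fintype.card_fin] at h
  set Φ0 := vals (kerA (ct N j A) ⊓ pt Φ) with hΦ0
  have h0 : Φ0 ≤ Φ := vals_le inf_le_right
  have e2 : fd A' Φ0 = N * fd A Φ0 := by
    rw [← fd_am]
    unfold fd
    rw [hA', kerA_stack, kerA_cs, inf_assoc]
    congr 2
    exact inf_eq_right.2 (pt_mono h0)
  rw [e2] at h
  exact h

theorem vals_ct_le (N j : ℕ) (A : GMat κ (ι × μ) G) (Φ : Submodule ℂ (μ → ℂ)) :
    vals (kerA (ct N j A) ⊓ pt Φ) ≤ Φ := vals_le inf_le_right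

/-- invariance passes to the cut system -/
theorem ct_inv (N j : ℕ) (A : GMat κ (ι × μ) G) (Φ : Submodule ℂ (μ → ℂ))
    (T : (μ → ℂ) →ₗ[ℂ] (μ → ℂ))
    (hT : ∀ x ∈ kerA A ⊓ (pt Φ : Submodule ℂ (L2 ((ι × μ) × G))), op (sc ι G T) x ∈ kerA A)
    (hΦ : kerA (ct N j A) ≤ pt Φ) :
    ∀ x ∈ kerA (ct N j A), op (sc (ι × Fin N) (ctG G ι N j) T) x ∈ kerA (ct N j A) := by
  intro x hx
  have hxΦ := hΦ hx
  unfold ct at hx ⊢
  rw [mem_cut_iff] at hx ⊢
  obtain ⟨h1, h2⟩ := hx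
  refine ⟨?_, ?_⟩
  · rw [mem_push_iff _ (inl_inj N j)] at h1 ⊢
    intro g
    rw [mem_am_iff]
    intro n
    have h3 : cp N n (slice ((ι × Fin N) × μ) (Monoid.Coprod.inl : G →* ctG G ι N j) (inl_inj N j) g x)
        ∈ kerA A ⊓ pt Φ := by
      refine ⟨(mem_am_iff N A _).1 (h1 g) n, ?_⟩
      intro p a
      exact hxΦ (p, n) (g * Monoid.Coprod.inl a)
    have h4 := hT _ h3
    have h5 : cp N n (slice ((ι × Fin N) × μ) (Monoid.Coprod.inl : G →* ctG G ι N j)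
        (inl_inj N j) g (op (sc (ι × Fin N) (ctG G ι N j) T) x))
        = op (sc ι G T) (cp N n (slice ((ι × Fin N) × μ)
          (Monoid.Coprod.inl : G →* ctG G ι N j) (inl_inj N j) g x)) := by
      ext ⟨⟨p, i⟩, a⟩
      rw [cp_apply, slice_apply, op_sc, op_sc]
      rfl
    rw [h5]
    exact h4
  · intro q i r
    have h3 : ∀ p, op (sc (ι × Fin N) (ctG G ι N j) T) x ((p, i), r * ctu G ι N j p q)
        = T (fun i => x ((p, i), r * ctu G ι N j p q)) i := fun p => op_sc _ _ _ _ _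
    rw [Finset.sum_congr rfl fun p _ => h3 p]
    have h4 : ∑ p, T (fun i => x ((p, i), r * ctu G ι N j p q)) i
        = T (∑ p, fun i => x ((p, i), r * ctu G ι N j p q)) i := by
      rw [map_sum, Finset.sum_apply]
    have h5 : (∑ p, fun i => x ((p, i), r * ctu G ι N j p q)) = 0 := by
      funext i
      rw [Finset.sum_apply]
      exact h2 q i r
    rw [h4, h5, map_zero]
    rfl

end Pool.Agent.W656.VA
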