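import Pool.Agent.H13.L.S8.H80R2.BC.Grp
import Pool.Agent.H13.L.S8.H812R3.KP.Defs

/-!
Von Neumann dimension of closed invariant subspaces of `ℓ²(ι × G)`: the trace property and the
rank-nullity theorem.
-/

set_option autoImplicit false
set_option linter.unusedSectionVars false

open scoped InnerProductSpace ENNReal
open Filter Topology

namespace Pool.Agent.W656.VA

open Pool.Agent.H80R2
open Pool.Agent.H80R2.BC (L2 GMat vdim IsTr LInv Equi act kerA dk pt vals TorDiv Coef AtR)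
open Pool.Agent.H812R3

/-- basis vector -/
noncomputable abbrev de {X : Type} (x : X) : L2 X := KP.dl x

theorem dl_eq {ι G : Type} [Group G] (i : ι) : BC.dl G i = de (i, (1 : G)) := by
  classical
  unfold BC.dl de
  rw [← KP.dl_eq_single]

variable {ι κ G : Type} [Group G]

/-- left translation: `(lt g x) (i, h) = x (i, g * h)` -/
noncomputable def lt (ι : Type) (g : G) : L2 (ι × G) →L[ℂ] L2 (ι × G) :=
  KP.pull (fun p => (p.1, g * p.2)) (by
    rintro ⟨a, b⟩ ⟨c, d⟩ h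
    simpa using h)

theorem lt_apply (g : G) (x : L2 (ι × G)) (i : ι) (h : G) : lt ι g x (i, h) = x (i, g * h) := rfl

theorem isTr_lt (g : G) (x : L2 (ι × G)) : IsTr g x (lt ι g x) := fun _ _ => rfl

theorem isTr_iff (g : G) (x y : L2 (ι × G)) : IsTr g x y ↔ y = lt ι g x := by
  constructor
  · intro h
    ext ⟨i, k⟩
    exact h i k
  · rintro rfl
    exact isTr_lt g x

theorem equi_lt {T : L2 (ι × G) →L[ℂ] L2 (κ × G)} (hT : Equi T) (g : G) (x : L2 (ι × G)) :
    T (VA.lt ι g x) = VA.lt κ g (T x) :=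
  (isTr_iff _ _ _).1 (hT g x _ (isTr_lt g x))

theorem equi_of {T : L2 (ι × G) →L[ℂ] L2 (κ × G)}
    (h : ∀ (g : G) (x : L2 (ι × G)), T (VA.lt ι g x) = VA.lt κ g (T x)) : Equi T := by
  intro g x y hy
  rw [isTr_iff] at hy ⊢
  rw [hy, h]

theorem linv_lt {K : Submodule ℂ (L2 (ι × G))} (hK : LInv K) (g : G) {x : L2 (ι × G)} (hx : x ∈ K) :
    VA.lt ι g x ∈ K := hK g x _ hx (isTr_lt g x)

theorem linv_of {K : Submodule ℂ (L2 (ι × G))}
    (h : ∀ (g : G) (x : L2 (ι × G)), x ∈ K → VA.lt ι g x ∈ K) : LInv K := by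
  intro g x y hx hy
  rw [isTr_iff] at hy
  rw [hy]
  exact h g x hx

theorem lt_lt (g h : G) (x : L2 (ι × G)) : lt ι g (lt ι h x) = lt ι (h * g) x := by
  ext ⟨i, k⟩
  simp [lt_apply, mul_assoc]

theorem lt_one (x : L2 (ι × G)) : lt ι (1 : G) x = x := by
  ext ⟨i, k⟩
  simp [lt_apply]

/-- the bijection behind `lt` -/
def ltE (ι : Type) (g : G) : (ι × G) ≃ (ι × G) := (Equiv.refl ι).prodCongr (Equiv.mulLeft g)

theorem inner_lt_lt (g : G) (x y : L2 (ι × G)) : ⟪lt ι g x, lt ι g y⟫_ℂ = ⟪x, y⟫_ℂ := by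
  rw [lp.inner_eq_tsum, lp.inner_eq_tsum]
  exact (ltE ι g).tsum_eq (fun p => ⟪x p, y p⟫_ℂ)

theorem inner_lt_left (g : G) (x y : L2 (ι × G)) : ⟪lt ι g x, y⟫_ℂ = ⟪x, lt ι g⁻¹ y⟫_ℂ := by
  rw [← inner_lt_lt g x (lt ι g⁻¹ y), lt_lt]
  simp [lt_one]

theorem de_apply_self {X : Type} (x : X) : de x x = 1 := by
  classical
  rw [KP.dl_apply, if_pos rfl]

theorem de_apply_ne {X : Type} {x y : X} (h : y ≠ x) : de x y = 0 := by
  classical
  rw [KP.dl_apply, if_neg h]

theorem lt_de (g h : G) (i : ι) : lt ι g (de (i, h)) = de (i, g⁻¹ * h) := by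
  classical
  ext ⟨j, k⟩
  rw [lt_apply, KP.dl_apply, KP.dl_apply]
  have : ((j, g * k) = (i, h)) ↔ ((j, k) = (i, g⁻¹ * h)) := by
    simp only [Prod.mk.injEq]
    constructor
    · rintro ⟨h1, h2⟩
      exact ⟨h1, by rw [← h2]; group⟩
    · rintro ⟨h1, h2⟩
      exact ⟨h1, by rw [h2]; group⟩
  by_cases hc : (j, g * k) = (i, h)
  · rw [if_pos hc, if_pos (this.1 hc)]
  · rw [if_neg hc, if_neg (fun h' => hc (this.2 h'))]

theorem de_eq_lt (i : ι) (h : G) : de (i, h) = lt ι h⁻¹ (de (i, (1 : G))) := by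
  rw [lt_de]
  simp

theorem equi_adj {T : L2 (ι × G) →L[ℂ] L2 (κ × G)} (hT : Equi T) :
    Equi (ContinuousLinearMap.adjoint T) := by
  apply equi_of
  intro g x
  refine ext_inner_right ℂ fun w => ?_
  rw [ContinuousLinearMap.adjoint_inner_left, inner_lt_left, ← equi_lt hT, inner_lt_left,
    ContinuousLinearMap.adjoint_inner_left]

theorem equi_comp {μ : Type} {S : L2 (κ × G) →L[ℂ] L2 (μ × G)} {T : L2 (ι × G) →L[ℂ] L2 (κ × G)}
    (hS : Equi S) (hT : Equi T) : Equi (S.comp T) := by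
  apply equi_of
  intro g x
  simp only [ContinuousLinearMap.comp_apply]
  rw [equi_lt hT, equi_lt hS]

theorem inner_de {X : Type} (x : X) (f : L2 X) : ⟪de x, f⟫_ℂ = f x := KP.inner_dl x f

theorem inner_de_right {X : Type} (x : X) (f : L2 X) : ⟪f, de x⟫_ℂ = (starRingEnd ℂ) (f x) := by
  rw [← inner_conj_symm, inner_de]

theorem norm_de {X : Type} (x : X) : ‖(de x : L2 X)‖ = 1 := KP.norm_dl x

theorem tsum_prod_fin [Fintype ι] (F : ι × G → ℂ) (hF : Summable F) :
    ∑' x, F x = ∑ j, ∑' h, F (j, h) := by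
  rw [Summable.tsum_prod hF, tsum_fintype]

/-- the Hilbert-Schmidt form of the trace property -/
theorem HS [Fintype ι] [Fintype κ] (X Y : L2 (ι × G) →L[ℂ] L2 (κ × G)) (hX : Equi X)
    (hY : Equi Y) :
    ∑ i : ι, ⟪X (de (i, 1)), Y (de (i, 1))⟫_ℂ
      = ∑ j : κ, ⟪ContinuousLinearMap.adjoint Y (de (j, 1)),
          ContinuousLinearMap.adjoint X (de (j, 1))⟫_ℂ := by
  have key : ∀ (Z : L2 (ι × G) →L[ℂ] L2 (κ × G)) (_ : Equi Z) (h : G) (i : ι) (j : κ),
      ContinuousLinearMap.adjoint Z (de (j, (1 : G))) (i, h)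
        = (starRingEnd ℂ) (Z (de (i, 1)) (j, h⁻¹)) := by
    intro Z hZ h i j
    rw [← inner_de (i, h), ContinuousLinearMap.adjoint_inner_right, inner_de_right]
    congr 1
    rw [de_eq_lt i h, equi_lt hZ, lt_apply, mul_one]
  have e1 : ∀ i, ⟪X (de (i, 1)), Y (de (i, 1))⟫_ℂ
      = ∑ j, ∑' h : G, ⟪X (de (i, 1)) (j, h), Y (de (i, 1)) (j, h)⟫_ℂ := by
    intro i
    rw [lp.inner_eq_tsum]
    exact tsum_prod_fin _ (lp.summable_inner _ _)
  have e2 : ∀ j, ⟪ContinuousLinearMap.adjoint Y (de (j, 1)),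
          ContinuousLinearMap.adjoint X (de (j, 1))⟫_ℂ
      = ∑ i, ∑' h : G, ⟪X (de (i, 1)) (j, h), Y (de (i, 1)) (j, h)⟫_ℂ := by
    intro j
    rw [lp.inner_eq_tsum]
    rw [tsum_prod_fin _ (lp.summable_inner _ _)]
    refine Finset.sum_congr rfl fun i _ => ?_
    rw [← Equiv.tsum_eq (Equiv.inv G)]
    refine tsum_congr fun h => ?_
    simp only [Equiv.inv_apply]
    rw [key X hX, key Y hY, inv_inv]
    simp only [RCLike.inner_apply, RingHomCompTriple.comp_apply, RingHom.id_apply]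
    ring
  rw [Finset.sum_congr rfl fun i _ => e1 i, Finset.sum_congr rfl fun j _ => e2 j,
    Finset.sum_comm]

/-- the trace -/
noncomputable def trc [Fintype ι] (T : L2 (ι × G) →L[ℂ] L2 (ι × G)) : ℂ :=
  ∑ i : ι, ⟪(de (i, (1 : G)) : L2 (ι × G)), T (de (i, 1))⟫_ℂ

theorem trc_comm [Fintype ι] [Fintype κ] (S : L2 (ι × G) →L[ℂ] L2 (κ × G))
    (R : L2 (κ × G) →L[ℂ] L2 (ι × G)) (hS : Equi S) (hR : Equi R) :
    trc (S.comp R) = trc (R.comp S) := by
  have h := HS (ContinuousLinearMap.adjoint R) S (equi_adj hR) hS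
  rw [ContinuousLinearMap.adjoint_adjoint] at h
  unfold trc
  have e1 : ∀ i : ι, ⟪(de (i, (1 : G)) : L2 (ι × G)), (R.comp S) (de (i, 1))⟫_ℂ
      = ⟪ContinuousLinearMap.adjoint R (de (i, 1)), S (de (i, 1))⟫_ℂ := by
    intro i
    rw [ContinuousLinearMap.adjoint_inner_left]
    rfl
  have e2 : ∀ j : κ, ⟪(de (j, (1 : G)) : L2 (κ × G)), (S.comp R) (de (j, 1))⟫_ℂ
      = ⟪ContinuousLinearMap.adjoint S (de (j, 1)), R (de (j, 1))⟫_ℂ := by
    intro j
    rw [ContinuousLinearMap.adjoint_inner_left]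
    rfl
  rw [Finset.sum_congr rfl fun i _ => e1 i, Finset.sum_congr rfl fun j _ => e2 j, h]

/-! ### dimension via projections -/

theorem hasProj {E : Type*} [NormedAddCommGroup E] [InnerProductSpace ℂ E] [CompleteSpace E]
    {K : Submodule ℂ E} (h : IsClosed (K : Set E)) : K.HasOrthogonalProjection := by
  have : CompleteSpace K := h.completeSpace_coe
  infer_instance

theorem infDist_eq {E : Type*} [NormedAddCommGroup E] [InnerProductSpace ℂ E]
    (K : Submodule ℂ E) [K.HasOrthogonalProjection] (d : E) (hd : ‖d‖ = 1) :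
    1 - Metric.infDist d (K : Set E) ^ 2 = ‖K.starProjection d‖ ^ 2 := by
  have h1 : Metric.infDist d (K : Set E) = ‖d - K.starProjection d‖ := by
    rw [Submodule.starProjection_minimal, Metric.infDist_eq_iInf]
    simp only [dist_eq_norm]
    rfl
  have h2 : ‖d‖ ^ 2 = ‖K.starProjection d‖ ^ 2 + ‖Kᗮ.starProjection d‖ ^ 2 :=
    Submodule.norm_sq_eq_add_norm_sq_starProjection d K
  have h3 : Kᗮ.starProjection d = d - K.starProjection d := by
    rw [← Submodule.starProjection_orthogonal_val]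
  rw [h1, ← h3]
  rw [hd] at h2
  linarith

theorem vdim_eq [Fintype ι] (K : Submodule ℂ (L2 (ι × G))) [K.HasOrthogonalProjection] :
    vdim K = ∑ i : ι, ‖K.starProjection (de (i, (1 : G)))‖ ^ 2 := by
  unfold vdim
  refine Finset.sum_congr rfl fun i _ => ?_
  rw [dl_eq, infDist_eq K _ (norm_de _)]

theorem norm_sq_star {E : Type*} [NormedAddCommGroup E] [InnerProductSpace ℂ E]
    (P : Submodule ℂ E) [P.HasOrthogonalProjection] (v : E) :
    ⟪v, P.starProjection v⟫_ℂ = ((‖P.starProjection v‖ ^ 2 : ℝ) : ℂ) := by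
  have h1 : ⟪v - P.starProjection v, P.starProjection v⟫_ℂ = 0 :=
    Submodule.starProjection_inner_eq_zero v _ (Submodule.starProjection_apply_mem P v)
  rw [inner_sub_left, sub_eq_zero] at h1
  rw [h1, inner_self_eq_norm_sq_to_K]
  norm_cast

theorem trc_proj [Fintype ι] (K : Submodule ℂ (L2 (ι × G))) [K.HasOrthogonalProjection] :
    trc K.starProjection = (vdim K : ℂ) := by
  rw [vdim_eq]
  unfold trc
  push_cast
  refine Finset.sum_congr rfl fun i _ => ?_
  rw [norm_sq_star]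
  push_cast
  rfl

theorem vdim_mono [Fintype ι] {K L : Submodule ℂ (L2 (ι × G))} (h : K ≤ L) : vdim K ≤ vdim L := by
  unfold vdim
  refine Finset.sum_le_sum fun i _ => ?_
  have h1 : Metric.infDist (BC.dl G i) (L : Set (L2 (ι × G))) ≤
      Metric.infDist (BC.dl G i) (K : Set (L2 (ι × G))) :=
    Metric.infDist_le_infDist_of_subset h ⟨0, K.zero_mem⟩
  have h2 := pow_le_pow_left₀ Metric.infDist_nonneg h1 2
  linarith

theorem vdim_bot [Fintype ι] : vdim (⊥ : Submodule ℂ (L2 (ι × G))) = 0 := by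
  rw [vdim_eq]
  apply Finset.sum_eq_zero
  intro i _
  simp

theorem vdim_top [Fintype ι] : vdim (⊤ : Submodule ℂ (L2 (ι × G))) = Fintype.card ι := by
  rw [vdim_eq]
  have : ∀ i : ι, ‖(⊤ : Submodule ℂ (L2 (ι × G))).starProjection (de (i, (1 : G)))‖ ^ 2 = 1 := by
    intro i
    rw [Submodule.starProjection_top]
    simp [norm_de]
  rw [Finset.sum_congr rfl fun i _ => this i]
  simp

theorem vdim_nonneg [Fintype ι] (K : Submodule ℂ (L2 (ι × G))) : 0 ≤ vdim K := by
  rw [← vdim_bot (ι := ι) (G := G)]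
  exact vdim_mono bot_le

theorem vdim_le_card [Fintype ι] (K : Submodule ℂ (L2 (ι × G))) : vdim K ≤ Fintype.card ι := by
  rw [← vdim_top (ι := ι) (G := G)]
  exact vdim_mono le_top

theorem vdim_orth [Fintype ι] (K : Submodule ℂ (L2 (ι × G))) [K.HasOrthogonalProjection] :
    vdim Kᗮ = Fintype.card ι - vdim K := by
  rw [vdim_eq, vdim_eq, eq_sub_iff_add_eq, ← Finset.sum_add_distrib]
  have : ∀ i : ι, ‖Kᗮ.starProjection (de (i, (1 : G)))‖ ^ 2 +
      ‖K.starProjection (de (i, (1 : G)))‖ ^ 2 = 1 := by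
    intro i
    have := Submodule.norm_sq_eq_add_norm_sq_starProjection (de (i, (1 : G))) K
    rw [norm_de] at this
    linarith
  rw [Finset.sum_congr rfl fun i _ => this i]
  simp

end Pool.Agent.W656.VA
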