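import Pool.Agent.H13.L.S8.W656.VA2

/-!
Von Neumann dimension: rank-nullity on invariant subspaces, supermodularity, strictness.
-/

set_option autoImplicit false
set_option linter.unusedSectionVars false

open scoped InnerProductSpace ENNReal
open Filter Topology

namespace Pool.Agent.W656.VA

open Pool.Agent.H80R2
open Pool.Agent.H80R2.BC (L2 GMat vdim IsTr LInv Equi act kerA dk pt vals TorDiv Coef AtR)
open Pool.Agent.H812R3

variable {ι κ G : Type} [Group G] [Fintype ι] [Fintype κ]

theorem isClosed_orth (K : Submodule ℂ (L2 (ι × G))) : IsClosed (Kᗮ : Set (L2 (ι × G))) :=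
  Submodule.isClosed_orthogonal K

theorem isClosed_inf {K L : Submodule ℂ (L2 (ι × G))} (hK : IsClosed (K : Set (L2 (ι × G))))
    (hL : IsClosed (L : Set (L2 (ι × G)))) : IsClosed ((K ⊓ L : Submodule ℂ (L2 (ι × G))) :
      Set (L2 (ι × G))) := hK.inter hL

theorem linv_inf {K L : Submodule ℂ (L2 (ι × G))} (hK : LInv K) (hL : LInv L) : LInv (K ⊓ L) :=
  fun g x y hx hy => ⟨hK g x y hx.1 hy, hL g x y hx.2 hy⟩

theorem linv_kr {S : L2 (ι × G) →L[ℂ] L2 (κ × G)} (hS : Equi S) : LInv (kr S) := by
  apply linv_of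
  intro g x hx
  rw [mem_kr] at hx ⊢
  rw [equi_lt hS, hx, map_zero]

theorem linv_orth {K : Submodule ℂ (L2 (ι × G))} (hK : LInv K) : LInv Kᗮ := by
  apply linv_of
  intro g x hx
  rw [Submodule.mem_orthogonal'] at hx ⊢
  intro w hw
  rw [inner_lt_left]
  exact hx _ (linv_lt hK _ hw)

theorem linv_closure {K : Submodule ℂ (L2 (ι × G))} (hK : LInv K) : LInv K.topologicalClosure := by
  rw [← Submodule.orthogonal_orthogonal_eq_closure]
  exact linv_orth (linv_orth hK)

theorem linv_map {S : L2 (ι × G) →L[ℂ] L2 (κ × G)} (hS : Equi S) {K : Submodule ℂ (L2 (ι × G))}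
    (hK : LInv K) : LInv (K.map (S : L2 (ι × G) →ₗ[ℂ] L2 (κ × G))) := by
  apply linv_of
  rintro g _ ⟨x, hx, rfl⟩
  refine ⟨lt ι g x, linv_lt hK _ hx, ?_⟩
  exact equi_lt hS g x

theorem equi_proj {K : Submodule ℂ (L2 (ι × G))} [K.HasOrthogonalProjection] (hK : LInv K) :
    Equi (K.starProjection) := by
  apply equi_of
  intro g x
  apply Submodule.eq_starProjection_of_mem_of_inner_eq_zero
  · exact linv_lt hK _ (Submodule.starProjection_apply_mem _ _)
  · intro w hw
    rw [← map_sub, inner_lt_left]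
    exact Submodule.starProjection_inner_eq_zero _ _ (linv_lt hK _ hw)

theorem proj_adj (V : Submodule ℂ (L2 (ι × G))) [V.HasOrthogonalProjection] :
    ContinuousLinearMap.adjoint V.starProjection = V.starProjection := by
  symm
  rw [ContinuousLinearMap.eq_adjoint_iff]
  intro x y
  exact Submodule.inner_starProjection_left_eq_right _ _ _

/-- the dimension of an orthogonal difference -/
theorem vdim_diff {P Q : Submodule ℂ (L2 (ι × G))} (hP : IsClosed (P : Set (L2 (ι × G))))
    (hQ : IsClosed (Q : Set (L2 (ι × G)))) (h : P ≤ Q) : vdim (Q ⊓ Pᗮ) = vdim Q - vdim P := by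
  have iP := hasProj hP
  have iQ := hasProj hQ
  have iV := hasProj (isClosed_inf hQ (isClosed_orth P))
  rw [vdim_eq, vdim_eq, vdim_eq, ← Finset.sum_sub_distrib]
  refine Finset.sum_congr rfl fun j _ => ?_
  set x := (de (j, (1 : G)) : L2 (ι × G))
  have hPQ : P.starProjection (Q.starProjection x) = P.starProjection x := by
    have := Submodule.starProjection_comp_starProjection_of_le h
    rw [← ContinuousLinearMap.comp_apply, this]
  have h1 : (Q ⊓ Pᗮ).starProjection x = Q.starProjection x - P.starProjection x := by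
    symm
    apply Eq.symm
    apply Submodule.eq_starProjection_of_mem_of_inner_eq_zero
    · refine ⟨Q.sub_mem (Submodule.starProjection_apply_mem _ _)
        (h (Submodule.starProjection_apply_mem _ _)), ?_⟩
      rw [← hPQ]
      exact Submodule.sub_starProjection_mem_orthogonal _
    · intro w hw
      have a1 : ⟪x - Q.starProjection x, w⟫_ℂ = 0 :=
        Submodule.starProjection_inner_eq_zero x w hw.1
      have a2 : ⟪P.starProjection x, w⟫_ℂ = 0 :=
        Submodule.inner_right_of_mem_orthogonal (Submodule.starProjection_apply_mem P x) hw.2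
      have : x - (Q.starProjection x - P.starProjection x)
        = (x - Q.starProjection x) + P.starProjection x := by abel
      rw [this, inner_add_left, a1, a2, add_zero]
  rw [h1]
  have h2 : ‖Q.starProjection x‖ ^ 2 = ‖P.starProjection x‖ ^ 2
      + ‖Q.starProjection x - P.starProjection x‖ ^ 2 := by
    have h3 : ⟪P.starProjection x, Q.starProjection x - P.starProjection x⟫_ℂ = 0 := by
      apply Submodule.inner_right_of_mem_orthogonal (Submodule.starProjection_apply_mem P x)
      rw [← hPQ]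
      exact Submodule.sub_starProjection_mem_orthogonal _
    have h4 := norm_add_sq_eq_norm_sq_add_norm_sq_of_inner_eq_zero _ _ h3
    rw [add_sub_cancel] at h4
    simpa [sq] using h4
  linarith

/-- **Rank-nullity**, the equality. -/
theorem vdim_rank {K : Submodule ℂ (L2 (ι × G))} (hK : IsClosed (K : Set (L2 (ι × G))))
    (hKi : LInv K) (T : L2 (ι × G) →L[ℂ] L2 (κ × G)) (hT : Equi T) :
    vdim K = vdim (K ⊓ kr T) +
      vdim (K.map (T : L2 (ι × G) →ₗ[ℂ] L2 (κ × G))).topologicalClosure := by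
  have iK := hasProj hK
  set S := T.comp K.starProjection with hS
  have hSe : Equi S := equi_comp hT (equi_proj hKi)
  have h1 := vdim_ker_adjoint S hSe
  -- the kernel
  have hLc := isClosed_inf hK (isClosed_kr T)
  have hkr : kr S = (K ⊓ (K ⊓ kr T)ᗮ)ᗮ := by
    have iD := hasProj (isClosed_inf hK (isClosed_orth (K ⊓ kr T)))
    have iL := hasProj hLc
    apply le_antisymm
    · intro x hx
      rw [mem_kr] at hx
      rw [Submodule.mem_orthogonal]
      intro u hu
      have h2 : K.starProjection x ∈ K ⊓ kr T := by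
        exact ⟨Submodule.starProjection_apply_mem _ _, (mem_kr _ _).2 hx⟩
      have h3 : ⟪u, x⟫_ℂ = ⟪u, K.starProjection x⟫_ℂ := by
        rw [← Submodule.inner_starProjection_left_eq_right,
          Submodule.starProjection_eq_self_iff.2 hu.1]
      rw [h3]
      exact Submodule.inner_left_of_mem_orthogonal h2 hu.2
    · intro x hx
      rw [mem_kr]
      show T (K.starProjection x) = 0
      rw [Submodule.mem_orthogonal] at hx
      set y := K.starProjection x with hy
      set z := (K ⊓ kr T).starProjection y with hz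
      have hyK : y ∈ K := Submodule.starProjection_apply_mem _ _
      have hzK : z ∈ K ⊓ kr T := Submodule.starProjection_apply_mem _ _
      have h2 : y - z ∈ K ⊓ (K ⊓ kr T)ᗮ :=
        ⟨K.sub_mem hyK hzK.1, Submodule.sub_starProjection_mem_orthogonal _⟩
      have h3 := hx _ h2
      have h4 : ⟪y - z, x⟫_ℂ = ⟪y - z, y⟫_ℂ := by
        rw [hy, ← Submodule.inner_starProjection_left_eq_right,
          Submodule.starProjection_eq_self_iff.2 h2.1]
      have h5 : ⟪y - z, y - z⟫_ℂ = 0 := by
        rw [inner_sub_right, ← h4, h3, Submodule.inner_left_of_mem_orthogonal hzK h2.2, sub_zero]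
      have h6 : y = z := sub_eq_zero.1 (inner_self_eq_zero.1 h5)
      rw [h6]
      exact (mem_kr _ _).1 hzK.2
  have iD := hasProj (isClosed_inf hK (isClosed_orth (K ⊓ kr T)))
  have e1 : vdim (kr S) = Fintype.card ι - (vdim K - vdim (K ⊓ kr T)) := by
    rw [hkr, vdim_orth, vdim_diff hLc hK inf_le_left]
  -- the kernel of the adjoint
  have hR : kr (ContinuousLinearMap.adjoint S) =
      (K.map (T : L2 (ι × G) →ₗ[ℂ] L2 (κ × G))).topologicalClosureᗮ := by
    rw [Submodule.orthogonal_closure]
    ext y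
    rw [mem_kr, Submodule.mem_orthogonal]
    constructor
    · rintro hy _ ⟨x, hx, rfl⟩
      have h2 : (T : L2 (ι × G) →ₗ[ℂ] L2 (κ × G)) x = S x := by
        show T x = T (K.starProjection x)
        rw [Submodule.starProjection_eq_self_iff.2 hx]
      rw [h2, ← ContinuousLinearMap.adjoint_inner_right, hy, inner_zero_right]
    · intro hy
      refine ext_inner_left ℂ fun x => ?_
      rw [ContinuousLinearMap.adjoint_inner_right, inner_zero_right]
      exact hy _ ⟨K.starProjection x, Submodule.starProjection_apply_mem _ _, rfl⟩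
  have iR := hasProj (Submodule.isClosed_topologicalClosure
    (K.map (T : L2 (ι × G) →ₗ[ℂ] L2 (κ × G))))
  rw [e1, hR, vdim_orth] at h1
  linarith

theorem vdim_rank_le {K : Submodule ℂ (L2 (ι × G))} (hK : IsClosed (K : Set (L2 (ι × G))))
    (hKi : LInv K) (T : L2 (ι × G) →L[ℂ] L2 (κ × G)) (hT : Equi T)
    {R : Submodule ℂ (L2 (κ × G))} (hR : IsClosed (R : Set (L2 (κ × G))))
    (hKR : ∀ x ∈ K, T x ∈ R) :
    vdim K ≤ vdim (K ⊓ kr T) + vdim R := by
  rw [vdim_rank hK hKi T hT]
  gcongr
  apply vdim_mono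
  apply Submodule.topologicalClosure_minimal _ _ hR
  rintro _ ⟨x, hx, rfl⟩
  exact hKR x hx

theorem vdim_inj_le {K : Submodule ℂ (L2 (ι × G))} (hK : IsClosed (K : Set (L2 (ι × G))))
    (hKi : LInv K) (T : L2 (ι × G) →L[ℂ] L2 (κ × G)) (hT : Equi T)
    {R : Submodule ℂ (L2 (κ × G))} (hR : IsClosed (R : Set (L2 (κ × G))))
    (hKR : ∀ x ∈ K, T x ∈ R) (hinj : ∀ x ∈ K, T x = 0 → x = 0) : vdim K ≤ vdim R := by
  have h := vdim_rank_le hK hKi T hT hR hKR
  have h2 : K ⊓ kr T = ⊥ := by
    rw [eq_bot_iff]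
    rintro x ⟨hx, hx2⟩
    exact hinj x hx ((mem_kr _ _).1 hx2)
  rw [h2, vdim_bot] at h
  linarith

/-- **Supermodularity.** -/
theorem vdim_super {K L M : Submodule ℂ (L2 (ι × G))} (hK : IsClosed (K : Set (L2 (ι × G))))
    (hKi : LInv K) (hL : IsClosed (L : Set (L2 (ι × G)))) (hLi : LInv L)
    (hM : IsClosed (M : Set (L2 (ι × G)))) (hKM : K ≤ M) (hLM : L ≤ M) :
    vdim K + vdim L ≤ vdim (K ⊓ L) + vdim M := by
  have iL := hasProj hL
  have iL' := hasProj (isClosed_orth L)
  have h := vdim_rank_le hK hKi Lᗮ.starProjection (equi_proj (linv_orth hLi))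
    (isClosed_inf hM (isClosed_orth L)) (by
      intro x hx
      refine ⟨?_, Submodule.starProjection_apply_mem _ _⟩
      have : Lᗮ.starProjection x = x - L.starProjection x := by
        rw [← Submodule.starProjection_orthogonal_val]
      rw [this]
      exact M.sub_mem (hKM hx) (hLM (Submodule.starProjection_apply_mem _ _)))
  have h2 : K ⊓ kr Lᗮ.starProjection = K ⊓ L := by
    ext x
    rw [Submodule.mem_inf, Submodule.mem_inf, mem_kr, Submodule.starProjection_apply_eq_zero_iff,
      Submodule.orthogonal_orthogonal]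
  rw [h2, vdim_diff hL hM hLM] at h
  linarith

theorem eq_bot_of_vdim {K : Submodule ℂ (L2 (ι × G))} (hK : IsClosed (K : Set (L2 (ι × G))))
    (hKi : LInv K) (h : vdim K ≤ 0) : K = ⊥ := by
  have iK := hasProj hK
  rw [vdim_eq] at h
  have h0 : ∑ i : ι, ‖K.starProjection (de (i, (1 : G)))‖ ^ 2 = 0 :=
    le_antisymm h (Finset.sum_nonneg fun _ _ => sq_nonneg _)
  rw [Finset.sum_eq_zero_iff_of_nonneg (fun _ _ => sq_nonneg _)] at h0
  rw [eq_bot_iff]
  intro x hx
  rw [Submodule.mem_bot]
  ext ⟨i, g⟩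
  have h1 := h0 i (Finset.mem_univ _)
  have h2 : K.starProjection (de (i, (1 : G))) = 0 := by
    rw [← norm_eq_zero]
    exact (pow_eq_zero_iff (n := 2) (by norm_num)).1 h1
  have h3 : K.starProjection (de (i, g)) = 0 := by
    rw [de_eq_lt i g, equi_lt (equi_proj hKi), h2, map_zero]
  have h4 : x (i, g) = ⟪K.starProjection (de (i, g)), x⟫_ℂ := by
    rw [Submodule.inner_starProjection_left_eq_right,
      Submodule.starProjection_eq_self_iff.2 hx, inner_de]
  rw [h4, h3, inner_zero_left]
  rfl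

theorem eq_of_vdim {K L : Submodule ℂ (L2 (ι × G))} (hK : IsClosed (K : Set (L2 (ι × G))))
    (hKi : LInv K) (hL : IsClosed (L : Set (L2 (ι × G)))) (hLi : LInv L) (hKL : K ≤ L)
    (h : vdim L ≤ vdim K) : K = L := by
  have iK := hasProj hK
  have h1 : vdim (L ⊓ Kᗮ) ≤ 0 := by
    rw [vdim_diff hK hL hKL]
    linarith
  have h2 := eq_bot_of_vdim (isClosed_inf hL (isClosed_orth K)) (linv_inf hLi (linv_orth hKi)) h1
  apply le_antisymm hKL
  intro x hx
  have h3 : x - K.starProjection x ∈ L ⊓ Kᗮ :=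
    ⟨L.sub_mem hx (hKL (Submodule.starProjection_apply_mem _ _)),
      Submodule.sub_starProjection_mem_orthogonal _⟩
  rw [h2, Submodule.mem_bot, sub_eq_zero] at h3
  rw [h3]
  exact Submodule.starProjection_apply_mem _ _

/-- **The projection vector criterion.** -/
theorem vdim_of_vec {K : Submodule ℂ (L2 (ι × G))} (hK : IsClosed (K : Set (L2 (ι × G))))
    (u : ι → L2 (ι × G)) (hu : ∀ i, u i ∈ K)
    (h : ∀ i, ∀ x ∈ K, ⟪u i, x⟫_ℂ = x (i, 1)) : vdim K = ∑ i, (u i (i, 1)).re := by
  have iK := hasProj hK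
  have h1 : ∀ i, K.starProjection (de (i, (1 : G))) = u i := by
    intro i
    symm
    apply Eq.symm
    apply Submodule.eq_starProjection_of_mem_of_inner_eq_zero (hu i)
    intro w hw
    rw [inner_sub_left, h i w hw, inner_de, sub_self]
  rw [vdim_eq]
  refine Finset.sum_congr rfl fun i _ => ?_
  have h2 := norm_sq_star K (de (i, (1 : G)))
  rw [h1 i, inner_de] at h2
  rw [h1 i, h2, Complex.ofReal_re]

theorem exists_vec {K : Submodule ℂ (L2 (ι × G))} (hK : IsClosed (K : Set (L2 (ι × G)))) :
    ∃ u : ι → L2 (ι × G), (∀ i, u i ∈ K) ∧ (∀ i, ∀ x ∈ K, ⟪u i, x⟫_ℂ = x (i, 1)) ∧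
      vdim K = ∑ i, (u i (i, 1)).re := by
  have iK := hasProj hK
  have h1 : ∀ i, ∀ x ∈ K, ⟪K.starProjection (de (i, (1 : G))), x⟫_ℂ = x (i, 1) := by
    intro i x hx
    rw [Submodule.inner_starProjection_left_eq_right, Submodule.starProjection_eq_self_iff.2 hx,
      inner_de]
  exact ⟨fun i => K.starProjection (de (i, (1 : G))),
    fun i => Submodule.starProjection_apply_mem _ _, h1,
    vdim_of_vec hK _ (fun i => Submodule.starProjection_apply_mem _ _) h1⟩

end Pool.Agent.W656.VA
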