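import Pool.Agent.H13.L.S8.W656.VA3

/-!
Operators given by matrices over the group algebra; kernels; scalar conditions; induction.
-/

set_option autoImplicit false
set_option linter.unusedSectionVars false

open scoped InnerProductSpace ENNReal
open Filter Topology

namespace Pool.Agent.W656.VA

open Pool.Agent.H80R2
open Pool.Agent.H80R2.BC (L2 GMat vdim IsTr LInv Equi act kerA dk pt vals TorDiv Coef AtR)
open Pool.Agent.H812R3

theorem pushL_apply {X Y : Type} (f : X → Y) (hf : Function.Injective f) (ξ : L2 X) (x : X) :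
    KP.push f hf ξ (f x) = ξ x := by
  classical
  rw [← KP.inner_dl (f x), KP.push, ContinuousLinearMap.adjoint_inner_right]
  have : KP.pull f hf (KP.dl (f x)) = KP.dl x := by
    ext z
    rw [KP.pull_apply, KP.dl_apply, KP.dl_apply]
    simp [hf.eq_iff]
  rw [this, KP.inner_dl]

theorem pushL_apply_ne {X Y : Type} (f : X → Y) (hf : Function.Injective f) (ξ : L2 X) (y : Y)
    (hy : ∀ x, f x ≠ y) : KP.push f hf ξ y = 0 := by
  classical
  rw [← KP.inner_dl y, KP.push, ContinuousLinearMap.adjoint_inner_right]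
  have : KP.pull f hf (KP.dl y) = 0 := by
    ext z
    rw [KP.pull_apply, KP.dl_apply, if_neg (hy z)]
    rfl
  rw [this, inner_zero_left]

variable {ι κ G : Type} [Group G] [Fintype ι] [Fintype κ]

theorem inj_pair {κ : Type} (k : κ) : Function.Injective (fun g : G => (k, g)) := by
  intro a b h
  simpa using h

theorem inj_pair_mul {ι : Type} (i : ι) (h : G) : Function.Injective (fun g : G => (i, g * h)) := by
  intro a b hab
  simpa using hab

/-- elementary operator -/
noncomputable def el (k : κ) (i : ι) (h : G) : L2 (ι × G) →L[ℂ] L2 (κ × G) :=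
  (KP.push (fun g : G => (k, g)) (inj_pair k)).comp
    (KP.pull (fun g : G => (i, g * h)) (inj_pair_mul i h))

theorem el_self (k : κ) (i : ι) (h : G) (x : L2 (ι × G)) (g : G) :
    el k i h x (k, g) = x (i, g * h) := by
  unfold el
  rw [ContinuousLinearMap.comp_apply]
  rw [pushL_apply (fun g : G => (k, g)) (inj_pair k)]
  rfl

theorem el_ne (k k' : κ) (hk : k' ≠ k) (i : ι) (h : G) (x : L2 (ι × G)) (g : G) :
    el k i h x (k', g) = 0 := by
  unfold el
  rw [ContinuousLinearMap.comp_apply]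
  rw [pushL_apply_ne (fun g : G => (k, g)) (inj_pair k)]
  intro a hc
  simp only [Prod.mk.injEq] at hc
  exact hk hc.1.symm

/-- the operator of a matrix over the group algebra -/
noncomputable def op (A : GMat κ ι G) : L2 (ι × G) →L[ℂ] L2 (κ × G) :=
  ∑ k, ∑ i, (A k i).sum fun h c => c • el k i h

theorem op_apply (A : GMat κ ι G) (x : L2 (ι × G)) (k : κ) (g : G) :
    op A x (k, g) = act A x k g := by
  classical
  unfold op act
  have e1 : ∀ k' : κ, (∑ i, (A k' i).sum fun h c => c • el k' i h) x (k, g)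
      = if k' = k then ∑ i, (A k i).sum (fun h c => c * x (i, g * h)) else 0 := by
    intro k'
    rw [_root_.sum_apply, lp.coeFn_sum, Finset.sum_apply]
    by_cases hk : k' = k
    · subst hk
      rw [if_pos rfl]
      refine Finset.sum_congr rfl fun i _ => ?_
      rw [Finsupp.sum, Finsupp.sum, _root_.sum_apply, lp.coeFn_sum, Finset.sum_apply]
      refine Finset.sum_congr rfl fun h _ => ?_
      rw [_root_.smul_apply, lp.coeFn_smul, Pi.smul_apply, el_self, smul_eq_mul]
    · rw [if_neg hk]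
      refine Finset.sum_eq_zero fun i _ => ?_
      rw [Finsupp.sum, _root_.sum_apply, lp.coeFn_sum, Finset.sum_apply]
      refine Finset.sum_eq_zero fun h _ => ?_
      rw [_root_.smul_apply, lp.coeFn_smul, Pi.smul_apply, el_ne _ _ (fun h => hk h.symm),
        smul_zero]
  rw [_root_.sum_apply, lp.coeFn_sum, Finset.sum_apply, Finset.sum_congr rfl fun k' _ => e1 k',
    Finset.sum_ite_eq' Finset.univ k, if_pos (Finset.mem_univ _)]

theorem equi_op (A : GMat κ ι G) : Equi (op A) := by
  apply equi_of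
  intro g x
  ext ⟨k, h⟩
  rw [op_apply, lt_apply, op_apply]
  unfold act
  simp only [lt_apply, mul_assoc]

theorem kerA_eq (A : GMat κ ι G) : kerA A = kr (op A) := by
  ext x
  rw [mem_kr]
  constructor
  · intro h
    ext ⟨k, g⟩
    rw [op_apply]
    exact h k g
  · intro h k g
    rw [← op_apply, h]
    rfl

omit [Fintype κ] in
theorem mem_kerA (A : GMat κ ι G) (x : L2 (ι × G)) : x ∈ kerA A ↔ ∀ k g, act A x k g = 0 := Iff.rfl

theorem isClosed_kerA (A : GMat κ ι G) : IsClosed (kerA A : Set (L2 (ι × G))) := by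
  rw [kerA_eq]
  exact isClosed_kr _

theorem linv_kerA (A : GMat κ ι G) : LInv (kerA A) := by
  rw [kerA_eq]
  exact linv_kr (equi_op A)

omit [Fintype κ] in
theorem mem_stack {κ' : Type} (A : GMat κ ι G) (B : GMat κ' ι G) (x : L2 (ι × G)) :
    x ∈ kerA (BC.stack A B) ↔ x ∈ kerA A ∧ x ∈ kerA B := by
  rw [mem_kerA, mem_kerA, mem_kerA, Sum.forall]
  rfl

omit [Fintype κ] in
theorem kerA_stack {κ' : Type} (A : GMat κ ι G) (B : GMat κ' ι G) :
    kerA (BC.stack A B) = kerA A ⊓ kerA B := by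
  ext x
  rw [mem_stack, Submodule.mem_inf]

/-! ### scalar matrices -/

open Classical in
/-- the scalar matrix acting on the second index -/
noncomputable def sc (ι G : Type) [Group G] {μ ν : Type} [Fintype μ]
    (L : (μ → ℂ) →ₗ[ℂ] (ν → ℂ)) : GMat (ι × ν) (ι × μ) G :=
  fun a p => if a.1 = p.1 then Finsupp.single 1 (L (Pi.single p.2 1) a.2) else 0

theorem lin_apply {μ ν : Type} [Fintype μ] [DecidableEq μ] (L : (μ → ℂ) →ₗ[ℂ] (ν → ℂ)) (f : μ → ℂ)
    (n : ν) : L f n = ∑ i, L (Pi.single i 1) n * f i := by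
  have h : f = ∑ i, f i • (Pi.single i (1 : ℂ) : μ → ℂ) := by
    funext j
    simp [Finset.sum_apply, Pi.single_apply]
  conv_lhs => rw [h]
  rw [map_sum, Finset.sum_apply]
  refine Finset.sum_congr rfl fun i _ => ?_
  rw [map_smul, Pi.smul_apply, smul_eq_mul, mul_comm]

theorem act_sc {μ ν : Type} [Fintype μ] (L : (μ → ℂ) →ₗ[ℂ] (ν → ℂ)) (x : (ι × μ) × G → ℂ)
    (p : ι) (n : ν) (g : G) :
    act (sc ι G L) x (p, n) g = L (fun i => x ((p, i), g)) n := by
  classical
  unfold act sc
  rw [Fintype.sum_prod_type, Finset.sum_eq_single p]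
  · rw [lin_apply L]
    refine Finset.sum_congr rfl fun i _ => ?_
    simp only [if_pos]
    rw [Finsupp.sum_single_index (by simp), mul_one]
  · intro q _ hq
    refine Finset.sum_eq_zero fun i _ => ?_
    simp only
    rw [if_neg (fun h => hq h.symm)]
    simp
  · intro h
    exact absurd (Finset.mem_univ _) h

theorem exists_ker {μ : Type} [Fintype μ] (Φ : Submodule ℂ (μ → ℂ)) :
    ∃ L : (μ → ℂ) →ₗ[ℂ] (μ → ℂ), LinearMap.ker L = Φ := by
  obtain ⟨Ψ, hΨ⟩ := Submodule.exists_isCompl Φ
  refine ⟨Ψ.subtype ∘ₗ (Submodule.projectionOnto Ψ Φ hΨ.symm), ?_⟩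
  rw [LinearMap.ker_comp_of_ker_eq_bot _ (Submodule.ker_subtype _)]
  exact Submodule.ker_projectionOnto hΨ.symm

/-- the scalar conditions defining `Φ` -/
noncomputable def cs (ι G : Type) [Group G] {μ : Type} [Fintype μ] (Φ : Submodule ℂ (μ → ℂ)) :
    GMat (ι × μ) (ι × μ) G := sc ι G (exists_ker Φ).choose

theorem kerA_cs {μ : Type} [Fintype μ] (Φ : Submodule ℂ (μ → ℂ)) :
    kerA (cs ι G Φ) = (pt Φ : Submodule ℂ (L2 ((ι × μ) × G))) := by
  ext x
  rw [mem_kerA]
  have hL := (exists_ker Φ).choose_spec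
  show (∀ k g, act (sc ι G (exists_ker Φ).choose) x k g = 0) ↔ _
  set L := (exists_ker Φ).choose
  constructor
  · intro h p g
    rw [← hL, LinearMap.mem_ker]
    funext n
    rw [← act_sc]
    exact h (p, n) g
  · rintro h ⟨p, n⟩ g
    rw [act_sc]
    have := h p g
    rw [← hL, LinearMap.mem_ker] at this
    rw [this]
    rfl

theorem isClosed_pt {μ : Type} [Fintype μ] (Φ : Submodule ℂ (μ → ℂ)) :
    IsClosed ((pt Φ : Submodule ℂ (L2 ((ι × μ) × G))) : Set (L2 ((ι × μ) × G))) := by
  rw [← kerA_cs]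
  exact isClosed_kerA _

theorem linv_pt {μ : Type} [Fintype μ] (Φ : Submodule ℂ (μ → ℂ)) :
    LInv (pt Φ : Submodule ℂ (L2 ((ι × μ) × G))) := by
  rw [← kerA_cs]
  exact linv_kerA _

theorem pt_mono {μ : Type} {Φ Ψ : Submodule ℂ (μ → ℂ)} (h : Φ ≤ Ψ) :
    (pt Φ : Submodule ℂ (L2 ((ι × μ) × G))) ≤ pt Ψ := fun _ hx p g => h (hx p g)

theorem mem_pt {μ : Type} (Φ : Submodule ℂ (μ → ℂ)) (x : L2 ((ι × μ) × G)) :
    x ∈ pt Φ ↔ ∀ p g, (fun i => x ((p, i), g)) ∈ Φ := Iff.rfl

theorem le_pt_vals {μ : Type} (Z : Submodule ℂ (L2 ((ι × μ) × G))) : Z ≤ pt (vals Z) :=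
  fun x hx p g => Submodule.subset_span ⟨x, hx, p, g, rfl⟩

theorem vals_le {μ : Type} {Z : Submodule ℂ (L2 ((ι × μ) × G))} {Φ : Submodule ℂ (μ → ℂ)}
    (h : Z ≤ pt Φ) : vals Z ≤ Φ := by
  apply Submodule.span_le.2
  rintro _ ⟨x, hx, p, g, rfl⟩
  exact h hx p g

/-! ### induction -/

variable {G' : Type} [Group G']

theorem act_push (f : G →* G') (A : GMat κ ι G) (x : ι × G' → ℂ) (k : κ) (g : G') :
    act (BC.push f A) x k g = ∑ i, (A k i).sum (fun h c => c * x (i, g * f h)) := by
  unfold act BC.push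
  refine Finset.sum_congr rfl fun i _ => ?_
  rw [Finsupp.sum_mapDomain_index]
  · intro b; simp
  · intro b c d; ring

/-- restriction to the coset `g G` -/
noncomputable def slice (ι : Type) (f : G →* G') (hf : Function.Injective f) (g : G') :
    L2 (ι × G') →L[ℂ] L2 (ι × G) :=
  KP.pull (fun p => (p.1, g * f p.2)) (by
    rintro ⟨a, b⟩ ⟨c, d⟩ h
    simp only [Prod.mk.injEq, mul_right_inj] at h
    exact Prod.ext h.1 (hf h.2))

theorem slice_apply (f : G →* G') (hf : Function.Injective f) (g : G') (x : L2 (ι × G')) (i : ι)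
    (h : G) : slice ι f hf g x (i, h) = x (i, g * f h) := rfl

theorem mem_push_iff (f : G →* G') (hf : Function.Injective f) (A : GMat κ ι G)
    (x : L2 (ι × G')) : x ∈ kerA (BC.push f A) ↔ ∀ g, slice ι f hf g x ∈ kerA A := by
  constructor
  · intro h g k g0
    have h1 := h k (g * f g0)
    rw [act_push] at h1
    rw [← h1]
    unfold act
    refine Finset.sum_congr rfl fun i _ => ?_
    refine Finsupp.sum_congr fun a _ => ?_
    rw [slice_apply, map_mul, mul_assoc]
  · intro h k g
    rw [act_push, ← h g k 1]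
    unfold act
    refine Finset.sum_congr rfl fun i _ => ?_
    refine Finsupp.sum_congr fun a _ => ?_
    rw [slice_apply, one_mul]

/-- **Induction** does not change the dimension. -/
theorem vdim_push (f : G →* G') (hf : Function.Injective f) (A : GMat κ ι G) :
    vdim (kerA (BC.push f A)) = vdim (kerA A) := by
  obtain ⟨u, hu, hu2, hu3⟩ := exists_vec (isClosed_kerA A)
  have hinj : Function.Injective (fun p : ι × G => (p.1, f p.2)) := by
    rintro ⟨a, b⟩ ⟨c, d⟩ h
    simp only [Prod.mk.injEq] at h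
    exact Prod.ext h.1 (hf h.2)
  set w : ι → L2 (ι × G') := fun i => KP.push (fun p : ι × G => (p.1, f p.2)) hinj (u i) with hw
  have hw1 : ∀ i j h, w i (j, f h) = u i (j, h) := fun i j h =>
    pushL_apply (fun p : ι × G => (p.1, f p.2)) hinj (u i) (j, h)
  have hw0 : ∀ i j g, g ∉ f.range → w i (j, g) = 0 := by
    intro i j g hg
    apply pushL_apply_ne
    rintro ⟨a, b⟩ h
    simp only [Prod.mk.injEq] at h
    exact hg ⟨b, h.2⟩
  rw [vdim_of_vec (isClosed_kerA (BC.push f A)) w, hu3]
  · refine Finset.sum_congr rfl fun i _ => ?_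
    rw [← map_one f, hw1]
  · intro i
    rw [mem_push_iff f hf]
    intro g
    by_cases hg : g ∈ f.range
    · obtain ⟨a, rfl⟩ := hg
      have : slice ι f hf (f a) (w i) = lt ι a (u i) := by
        ext ⟨j, h⟩
        rw [slice_apply, ← map_mul, hw1, lt_apply]
      rw [this]
      exact linv_lt (linv_kerA A) _ (hu i)
    · have : slice ι f hf g (w i) = 0 := by
        ext ⟨j, h⟩
        rw [slice_apply, hw0]
        · rfl
        · rintro ⟨b, hb⟩
          apply hg
          refine ⟨b * h⁻¹, ?_⟩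
          rw [map_mul, hb, map_inv]
          group
      rw [this]
      exact Submodule.zero_mem _
  · intro i x hx
    have h1 : ⟪w i, x⟫_ℂ = ⟪u i, slice ι f hf 1 x⟫_ℂ := by
      rw [hw]
      show ⟪KP.push _ _ (u i), x⟫_ℂ = _
      rw [KP.push, ContinuousLinearMap.adjoint_inner_left]
      congr 1
      ext ⟨j, h⟩
      rw [slice_apply, one_mul]
      rfl
    rw [h1, hu2 i _ ((mem_push_iff f hf A x).1 hx 1), slice_apply, one_mul, map_one]

end Pool.Agent.W656.VA
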