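import Pool.Agent.H13.L.S8.W656.VA6

/-!
The set of kernel dimensions of a group: closure properties; the gap theorem.
-/

set_option autoImplicit false
set_option linter.unusedSectionVars false

open scoped InnerProductSpace ENNReal
open Filter Topology

namespace Pool.Agent.W656.VA

open Pool.Agent.H80R2
open Pool.Agent.H80R2.BC (L2 GMat vdim IsTr LInv Equi act kerA dk pt vals TorDiv Coef AtR Generic)
open Pool.Agent.H812R3

variable {ι κ ι' κ' G G' : Type} [Group G] [Group G'] [Fintype ι] [Fintype ι'] [Fintype κ]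
  [Fintype κ'] {R : Subring ℂ}

/-- `v` is the dimension of the kernel of a matrix over `R[G]` -/
def Val (R : Subring ℂ) (G : Type) [Group G] (v : ℝ) : Prop :=
  ∃ (m n : ℕ) (A : GMat (Fin n) (Fin m) G), Coef R A ∧ vdim (kerA A) = v

theorem val_of (A : GMat κ ι G) (hA : Coef R A) : Val R G (vdim (kerA A)) := by
  refine ⟨Fintype.card ι, Fintype.card κ,
    ri (Fintype.equivFin κ).symm (Fintype.equivFin ι).symm A, ?_, vdim_ri _ _ A⟩
  intro k i h
  exact hA _ _ _

theorem coef_mapDomain {X Y : Type} (f : X → Y) (a : X →₀ ℂ) (h : ∀ x, a x ∈ R) (y : Y) :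
    a.mapDomain f y ∈ R := by
  classical
  rw [Finsupp.mapDomain, Finsupp.sum_apply, Finsupp.sum]
  apply Subring.sum_mem
  intro x _
  rw [Finsupp.single_apply]
  split_ifs
  · exact h x
  · exact R.zero_mem

theorem coef_single {X : Type} (x : X) (c : ℂ) (hc : c ∈ R) (y : X) :
    (Finsupp.single x c : X →₀ ℂ) y ∈ R := by
  classical
  rw [Finsupp.single_apply]
  split_ifs
  · exact hc
  · exact R.zero_mem

theorem coef_push (f : G → G') (A : GMat κ ι G) (hA : Coef R A) : Coef R (BC.push f A) :=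
  fun k i y => coef_mapDomain f (A k i) (hA k i) y

theorem coef_stack {κ₂ : Type} {A : GMat κ ι G} {B : GMat κ₂ ι G} (hA : Coef R A)
    (hB : Coef R B) : Coef R (BC.stack A B) := by
  rintro (k | k) i h
  · exact hA k i h
  · exact hB k i h

theorem coef_Th {η μ : Type} (u : ι → η → G') : Coef R (BC.Th u : GMat (η × μ) (ι × μ) G') := by
  classical
  intro k i h
  unfold BC.Th
  split_ifs
  · exact coef_single _ _ R.one_mem _
  · exact R.zero_mem

theorem coef_Cut {η μ : Type} [Fintype μ] (inc : G →* G') (u : ι → η → G') {A : GMat κ (ι × μ) G}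
    (hA : Coef R A) : Coef R (BC.Cut inc u A) :=
  coef_stack (fun k i y => coef_mapDomain inc (A k i) (hA k i) y) (coef_Th u)

theorem coef_ext {A : GMat κ ι G} {A' : GMat κ' ι' G'} (hA : Coef R A) (hA' : Coef R A') :
    Coef R (BC.ext A A') := by
  classical
  rintro (⟨k, i'⟩ | ⟨i, k⟩) p g
  · unfold BC.ext
    simp only [Sum.elim_inl]
    split_ifs
    · exact coef_mapDomain _ _ (hA _ _) _
    · exact R.zero_mem
  · unfold BC.ext
    simp only [Sum.elim_inr]
    split_ifs
    · exact coef_mapDomain _ _ (hA' _ _) _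
    · exact R.zero_mem

theorem coef_bd {A : GMat κ ι G} {A' : GMat κ' ι' G} (hA : Coef R A) (hA' : Coef R A') :
    Coef R (bd A A') := by
  rintro (k | k) (i | i) g
  · exact hA _ _ _
  · exact R.zero_mem
  · exact R.zero_mem
  · exact hA' _ _ _

theorem val_add {v w : ℝ} (hv : Val R G v) (hw : Val R G w) : Val R G (v + w) := by
  obtain ⟨m, n, A, hA, rfl⟩ := hv
  obtain ⟨m', n', A', hA', rfl⟩ := hw
  rw [← vdim_bd]
  exact val_of _ (coef_bd hA hA')

theorem val_mul {v w : ℝ} (hv : Val R G v) (hw : Val R G' w) : Val R (G × G') (v * w) := by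
  obtain ⟨m, n, A, hA, rfl⟩ := hv
  obtain ⟨m', n', A', hA', rfl⟩ := hw
  rw [← vdim_ext]
  exact val_of _ (coef_ext hA hA')

theorem val_zero : Val R G 0 := by
  refine ⟨0, 0, fun _ _ => 0, fun k => k.elim0, ?_⟩
  unfold vdim
  simp

theorem val_nsmul {v : ℝ} (hv : Val R G v) (n : ℕ) : Val R G (n * v) := by
  induction n with
  | zero => simpa using val_zero
  | succ n ih =>
    have := val_add ih hv
    have e : ((n : ℝ) * v + v) = ((n + 1 : ℕ) : ℝ) * v := by push_cast; ring
    rwa [e] at this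

theorem val_subgroup (H : Subgroup G) [Finite H] : Val R G (1 / (Nat.card H : ℝ)) := by
  have := Fintype.ofFinite H
  rw [← vdim_sgM H]
  apply val_of
  intro k i g
  unfold sgM
  rw [Finsupp.sub_apply]
  exact R.sub_mem (coef_single _ _ R.one_mem _) (coef_single _ _ R.one_mem _)

theorem val_nonneg {v : ℝ} (hv : Val R G v) : 0 ≤ v := by
  obtain ⟨m, n, A, hA, rfl⟩ := hv
  exact vdim_nonneg _

/-- **cutting by integers** -/
theorem val_cut {v : ℝ} (hv : Val R G v) (j : ℕ) (hj : (j : ℝ) < v) :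
    ∃ m : ℕ, Val R (Monoid.Coprod G (FreeGroup (Fin m))) (v - j) := by
  obtain ⟨m, n, A, hA, rfl⟩ := hv
  set A' : GMat (Fin n) (Fin m × Unit) G := ri (Equiv.refl _) (Equiv.prodPUnit (Fin m)) A with hA'
  have hAc : Coef R A' := fun k i h => hA _ _ _
  have hAv : vdim (kerA A') = vdim (kerA A) := vdim_ri _ _ A
  refine ⟨m * j, ?_⟩
  set e : Fin m × Fin j ≃ Fin (m * j) := finProdFinEquiv with he
  have hgen := BC.generic_coprod G (m * j) e
  set inc : G →* Monoid.Coprod G (FreeGroup (Fin (m * j))) := Monoid.Coprod.inl with hinc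
  set u : Fin m → Fin j → Monoid.Coprod G (FreeGroup (Fin (m * j))) := fun p q =>
    (Monoid.Coprod.inr : FreeGroup (Fin (m * j)) →* Monoid.Coprod G (FreeGroup (Fin (m * j))))
        (FreeGroup.of (e (p, q))) with hu
  have hinj : Function.Injective inc := Monoid.Coprod.inl_injective
  have h1 := cut_eq inc hinj u hgen A'
  have h2 := cut_ge inc hinj u A' ⊤
  have hZ : Val R (Monoid.Coprod G (FreeGroup (Fin (m * j)))) (vdim (kerA (BC.Cut inc u A'))) :=
    val_of _ (coef_Cut inc u hAc)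
  set Z := kerA (BC.Cut inc u A') with hZdef
  set Φ := vals Z with hΦ
  have ftop : fd A' ⊤ = vdim (kerA A) := by
    unfold fd
    rw [← hAv]
    congr 1
    exact inf_eq_left.2 (fun x _ p g => trivial)
  have h3 : vdim (Z ⊓ pt ⊤) ≤ vdim Z := vdim_mono inf_le_left
  rw [ftop, finrank_top, Module.finrank_fintype_fun_eq_card] at h2
  simp only [Fintype.card_fin, Fintype.card_unit, Nat.cast_one, mul_one] at h2 h1
  have h4 : Module.finrank ℂ Φ ≤ 1 := by
    have := Submodule.finrank_le Φ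
    rwa [Module.finrank_fintype_fun_eq_card, Fintype.card_unit] at this
  have h5 : fd A' Φ ≤ vdim (kerA A) := by
    rw [← hAv]
    exact vdim_mono inf_le_left
  rcases Nat.le_one_iff_eq_zero_or_eq_one.1 h4 with h6 | h6
  · exfalso
    have h7 : Φ = ⊥ := Submodule.finrank_eq_zero.1 h6
    have h8 : fd A' Φ = 0 := by
      unfold fd
      rw [h7]
      have : kerA A' ⊓ pt ⊥ = ⊥ := by
        rw [eq_bot_iff]
        rintro x ⟨_, hx⟩
        rw [Submodule.mem_bot]
        ext ⟨⟨p, i⟩, g⟩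
        exact congrFun ((Submodule.mem_bot ℂ).1 (hx p g)) i
      rw [this, vdim_bot]
    rw [h8, h6] at h1
    simp only [Nat.cast_zero, mul_zero, sub_zero] at h1
    linarith
  · rw [h6] at h1
    simp only [Nat.cast_one, mul_one] at h1
    have h9 : vdim Z = vdim (kerA A) - j := by linarith
    rwa [h9] at hZ

/-! ### the least common multiple of the orders of the finite subgroups -/

/-- The orders of the finite subgroups of `G` are bounded and `d` is their least common
multiple. -/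
def IsLcm (G : Type) [Group G] (d : ℕ) : Prop :=
  (∃ N : ℕ, ∀ H : Subgroup G, Finite H → Nat.card H ≤ N) ∧
    (∀ H : Subgroup G, Finite H → Nat.card H ∣ d) ∧
    ∀ e : ℕ, (∀ H : Subgroup G, Finite H → Nat.card H ∣ e) → d ∣ e

theorem IsLcm.pos {d : ℕ} (h : IsLcm G d) : 0 < d := by
  obtain ⟨⟨N, hN⟩, h1, h2⟩ := h
  have h3 : d ∣ N.factorial := by
    apply h2
    intro H hH
    exact Nat.dvd_factorial Nat.card_pos (hN H hH)
  exact Nat.pos_of_dvd_of_pos h3 (Nat.factorial_pos N)

theorem isLcm_of {d : ℕ} (h0 : 0 < d) (h1 : ∀ H : Subgroup G, Finite H → Nat.card H ∣ d)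
    (h2 : ∀ e : ℕ, (∀ H : Subgroup G, Finite H → Nat.card H ∣ e) → d ∣ e) : IsLcm G d :=
  ⟨⟨d, fun H hH => Nat.le_of_dvd h0 (h1 H hH)⟩, h1, h2⟩

theorem card_map_of_inj {f : G →* G'} (hf : Function.Injective f) (H : Subgroup G) [Finite H] :
    Finite (H.map f) ∧ Nat.card (H.map f) = Nat.card H := by
  have e := H.equivMapOfInjective f hf
  exact ⟨Finite.of_equiv _ e.toEquiv, (Nat.card_congr e.toEquiv).symm⟩

theorem IsLcm.coprod {d : ℕ} (h : IsLcm G d) (m : ℕ) :
    IsLcm (Monoid.Coprod G (FreeGroup (Fin m))) d := by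
  refine isLcm_of h.pos (BC.torDiv_coprod G m d h.2.1) ?_
  intro e he
  apply h.2.2
  intro H hH
  have := card_map_of_inj (f := (Monoid.Coprod.inl : G →* Monoid.Coprod G (FreeGroup (Fin m))))
    Monoid.Coprod.inl_injective H
  rw [← this.2]
  exact he _ this.1

theorem IsLcm.prod {d d' : ℕ} (h : IsLcm G d) (h' : IsLcm G' d') : IsLcm (G × G') (d * d') := by
  refine isLcm_of (Nat.mul_pos h.pos h'.pos) (BC.torDiv_prod G G' d d' h.2.1 h'.2.1) ?_
  intro e he
  -- every product of orders divides `e`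
  have h1 : ∀ (H : Subgroup G) (H' : Subgroup G'), Finite H → Finite H' →
      Nat.card H * Nat.card H' ∣ e := by
    intro H H' hH hH'
    have e1 := Subgroup.prodEquiv H H'
    have h2 : Finite (H.prod H') := Finite.of_equiv _ e1.symm.toEquiv
    have h3 := he (H.prod H') h2
    rwa [Nat.card_congr e1.toEquiv, Nat.card_prod] at h3
  rcases Nat.eq_zero_or_pos e with rfl | he0
  · exact dvd_zero _
  have h2 : ∀ H' : Subgroup G', Finite H' → d * Nat.card H' ∣ e := by
    intro H' hH'
    have h3 : Nat.card H' ∣ e := (Dvd.intro_left _ rfl).trans (h1 ⊥ H' inferInstance hH')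
    obtain ⟨f, rfl⟩ := h3
    have h4 : d ∣ f := by
      apply h.2.2
      intro H hH
      have h5 := h1 H H' hH hH'
      rw [mul_comm] at h5
      exact Nat.dvd_of_mul_dvd_mul_left Nat.card_pos h5
    rw [mul_comm]
    exact mul_dvd_mul_left _ h4
  have h3 : d ∣ e := (Dvd.intro _ rfl).trans (h2 ⊥ inferInstance)
  obtain ⟨f, rfl⟩ := h3
  apply mul_dvd_mul_left
  apply h'.2.2
  intro H' hH'
  exact Nat.dvd_of_mul_dvd_mul_left h.pos (h2 H' hH')

/-! ### the fractions `a / d` -/

theorem val_frac {d : ℕ} (h : IsLcm G d) (k : ℤ) :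
    ∃ (w : ℝ) (z : ℤ), Val R G w ∧ w = k / d + z := by
  have hd : (0 : ℝ) < d := by exact_mod_cast h.pos
  -- the additive subgroup of good numerators
  let P : AddSubgroup ℤ :=
    { carrier := {k | ∃ (w : ℝ) (z : ℤ), Val R G w ∧ w = k / d + z}
      zero_mem' := ⟨0, 0, val_zero, by simp⟩
      add_mem' := by
        rintro a b ⟨w, z, hw, rfl⟩ ⟨w', z', hw', rfl⟩
        refine ⟨_, z + z', val_add hw hw', ?_⟩
        push_cast
        ring
      neg_mem' := by
        rintro a ⟨w, z, hw, rfl⟩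
        refine ⟨_, a + (d - 1) * z, val_nsmul hw (d - 1), ?_⟩
        have h1 : ((d - 1 : ℕ) : ℝ) = d - 1 := by
          rw [Nat.cast_sub h.pos]
          simp
        rw [h1]
        push_cast
        field_simp
        ring }
  have hP : ∀ H : Subgroup G, Finite H → ((d / Nat.card H : ℕ) : ℤ) ∈ P := by
    intro H hH
    refine ⟨1 / (Nat.card H : ℝ), 0, val_subgroup H, ?_⟩
    obtain ⟨c, hc⟩ := h.2.1 H hH
    have hH0 : 0 < Nat.card H := Nat.card_pos
    rw [hc, Nat.mul_div_cancel_left _ hH0]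
    have hc0 : c ≠ 0 := by
      rintro rfl
      have := h.pos
      omega
    have e1 : (Nat.card H : ℝ) ≠ 0 := by exact_mod_cast hH0.ne'
    have e2 : (c : ℝ) ≠ 0 := by exact_mod_cast hc0
    push_cast
    field_simp
    ring
  obtain ⟨g, hg⟩ := Int.subgroup_cyclic P
  have hg1 : ∀ H : Subgroup G, Finite H → g.natAbs ∣ d / Nat.card H := by
    intro H hH
    have := hP H hH
    rw [hg, AddSubgroup.mem_closure_singleton] at this
    obtain ⟨c, hc⟩ := this
    have h1 : g ∣ ((d / Nat.card H : ℕ) : ℤ) := ⟨c, by rw [← hc, smul_eq_mul, mul_comm]⟩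
    have h2 := Int.natAbs_dvd_natAbs.2 h1
    rwa [Int.natAbs_natCast] at h2
  have hg2 : g.natAbs ∣ d := by
    have := hg1 ⊥ inferInstance
    simpa using this
  have hg0 : 0 < g.natAbs := Nat.pos_of_dvd_of_pos hg2 h.pos
  have hg3 : d ∣ d / g.natAbs := by
    apply h.2.2
    intro H hH
    obtain ⟨c, hc⟩ := hg1 H hH
    obtain ⟨e, he⟩ := h.2.1 H hH
    have hH0 : 0 < Nat.card H := Nat.card_pos
    rw [he, Nat.mul_div_cancel_left _ hH0] at hc
    refine ⟨c, ?_⟩
    apply Nat.div_eq_of_eq_mul_left hg0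
    rw [he, hc]
    ring
  have hg4 : g.natAbs = 1 := by
    obtain ⟨c, hc⟩ := hg2
    rw [hc, Nat.mul_div_cancel_left _ hg0] at hg3
    have hc0 : 0 < c := by
      rcases Nat.eq_zero_or_pos c with h0 | h0
      · rw [h0] at hc
        have := h.pos
        omega
      · exact h0
    have h5 := Nat.le_of_dvd hc0 hg3
    have h6 : g.natAbs * c ≤ 1 * c := by omega
    have := Nat.le_of_mul_le_mul_right h6 hc0
    omega
  have : k ∈ P := by
    rw [hg, AddSubgroup.mem_closure_singleton]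
    rcases Int.natAbs_eq g with h1 | h1
    · rw [hg4] at h1
      exact ⟨k, by rw [h1]; simp⟩
    · rw [hg4] at h1
      exact ⟨-k, by rw [h1]; simp⟩
  exact this

/-- **The reduction step**: a value outside `(1/d) ℤ` gives one in `(0, 1/d)`. -/
theorem val_small {d : ℕ} (h : IsLcm G d) {v : ℝ} (hv : Val R G v)
    (hv2 : ¬ ∃ z : ℤ, (d : ℝ) * v = z) :
    ∃ (m : ℕ) (ρ : ℝ), Val R (Monoid.Coprod G (FreeGroup (Fin m))) ρ ∧ 0 < ρ ∧ (d : ℝ) * ρ < 1 := by
  have hd : (0 : ℝ) < d := by exact_mod_cast h.pos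
  set k : ℤ := ⌊(d : ℝ) * v⌋ with hk
  set ρ : ℝ := v - k / d with hρ
  have h1 : (k : ℝ) ≤ d * v := Int.floor_le _
  have h2 : (d : ℝ) * v < k + 1 := Int.lt_floor_add_one _
  have h3 : (d : ℝ) * ρ = d * v - k := by
    rw [hρ]
    field_simp
  have h4 : 0 < (d : ℝ) * ρ := by
    rcases h1.lt_or_eq with h5 | h5
    · linarith
    · exact absurd ⟨k, h5.symm⟩ hv2
  have h5 : 0 < ρ := by
    by_contra hc
    push Not at hc
    nlinarith
  have h6 : (d : ℝ) * ρ < 1 := by linarith
  have hd1 : (1 : ℝ) ≤ d := by exact_mod_cast h.pos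
  have h7 : ρ < 1 := by nlinarith
  obtain ⟨w, z, hw, hwz⟩ := val_frac (R := R) h (-k)
  have h8 : v + w = ρ + z := by
    rw [hwz, hρ]
    push_cast
    ring
  have h9 := val_add hv hw
  rw [h8] at h9
  have h10 := val_nonneg h9
  have h11 : 0 ≤ z := by
    by_contra hc
    push Not at hc
    have : (z : ℝ) ≤ -1 := by exact_mod_cast (by omega : z ≤ -1)
    linarith
  obtain ⟨j, rfl⟩ := Int.eq_ofNat_of_zero_le h11
  obtain ⟨m, hm⟩ := val_cut h9 j (by push_cast; linarith)
  refine ⟨m, ρ, ?_, h5, h6⟩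
  have : ρ + ((j : ℤ) : ℝ) - j = ρ := by push_cast; ring
  rwa [this] at hm

end Pool.Agent.W656.VA
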