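import Pool.Agent.H13.L.S8.W656.VA8

/-!
Torsion-free groups: one group with a dense set of kernel dimensions.
-/

set_option autoImplicit false
set_option linter.unusedSectionVars false

open scoped InnerProductSpace ENNReal
open Filter Topology

namespace Pool.Agent.W656.VA

open Pool.Agent.H80R2
open Pool.Agent.H80R2.BC (L2 GMat vdim IsTr LInv Equi act kerA dk pt vals TorDiv Coef AtR Generic)

theorem val_incl {G G' : Type} [Group G] [Group G'] {R : Subring ℂ} {v : ℝ} (f : G →* G')
    (hf : Function.Injective f) (hv : Val R G v) : Val R G' v := by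
  obtain ⟨m, n, A, hA, rfl⟩ := hv
  rw [← vdim_push f hf]
  exact ⟨m, n, _, coef_push f A hA, rfl⟩

theorem isLcm_one {G : Type} [Group G] (h : ∀ g : G, ∀ n : ℕ, 0 < n → g ^ n = 1 → g = 1) :
    IsLcm G 1 := by
  have h1 : ∀ H : Subgroup G, Finite H → Nat.card H = 1 := by
    intro H hH
    have : ∀ x : H, x = 1 := by
      intro x
      apply Subtype.ext
      have h2 := pow_card_eq_one' (x := x)
      have h3 : (x : G) ^ Nat.card H = 1 := by
        rw [← SubmonoidClass.coe_pow, h2]
        rfl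
      exact h _ _ Nat.card_pos h3
    have : Subsingleton H := ⟨fun a b => by rw [this a, this b]⟩
    exact Nat.card_of_subsingleton 1
  exact isLcm_of one_pos (fun H hH => by rw [h1 H hH]) (fun e _ => one_dvd e)

/-- If each group of the class has a gap somewhere, then all dimensions are integers. -/
theorem single_val (C : (G : Type) → [Group G] → Prop)
    (htf : ∀ (G : Type) [Group G], C G → ∀ g : G, ∀ n : ℕ, 0 < n → g ^ n = 1 → g = 1)
    (hprod : ∀ (G H : Type) [Group G] [Group H], C G → C H → C (G × H))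
    (hpi : ∀ (G : ℕ → Type) [∀ i, Group (G i)], (∀ i, C (G i)) → C (∀ i, G i))
    (hfree : ∀ (G : Type) [Group G] (m : ℕ), C G → C (Monoid.Coprod G (FreeGroup (Fin m))))
    (R : Subring ℂ)
    (hgap : ∀ (G : Type) [Group G], C G → ∃ a b : ℝ, 0 ≤ a ∧ a < b ∧ ∀ v : ℝ, Val R G v →
      ¬ (a < v ∧ v < b))
    (G : Type) [Group G] (hG : C G) (v : ℝ) (hv : Val R G v) : ∃ z : ℤ, v = z := by
  classical
  by_contra hcon
  have hcon' : ¬ ∃ z : ℤ, ((1 : ℕ) : ℝ) * v = z := by simpa using hcon
  have h1 : ∀ p : ℚ × ℚ, ∃ (H : Type) (_ : Group H), C H ∧ ((0 ≤ p.1 ∧ p.1 < p.2) →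
      ∃ w : ℝ, Val R H w ∧ (p.1 : ℝ) < w ∧ w < p.2) := by
    intro p
    by_cases hp : 0 ≤ p.1 ∧ p.1 < p.2
    · by_contra hno
      push Not at hno
      apply hcon'
      refine gap_val C hprod hfree R p.1 p.2 (by exact_mod_cast hp.1) (by exact_mod_cast hp.2)
        ?_ G hG 1 (isLcm_one (htf G hG)) v hv
      rintro H _ hH d hd w hw ⟨h2, h3⟩
      have hd1 : d = 1 := by
        have := hd.2.2 1 (fun K hK => by
          have := (isLcm_one (htf H hH)).2.1 K hK
          exact this)
        exact Nat.dvd_one.1 this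
      subst hd1
      rw [Nat.cast_one, one_mul] at h2 h3
      have := (hno H inferInstance hH).2 w hw h2
      linarith
    · exact ⟨G, inferInstance, hG, fun h => absurd h hp⟩
  choose H iH hH hHv using h1
  obtain ⟨e⟩ : Nonempty (ℕ ≃ ℚ × ℚ) := by
    have : Infinite (ℚ × ℚ) := inferInstance
    obtain ⟨D⟩ : Nonempty (Denumerable (ℚ × ℚ)) := nonempty_denumerable _
    exact ⟨(Denumerable.eqv (ℚ × ℚ)).symm⟩
  have hPiC : C (∀ i, H (e i)) := hpi (fun i => H (e i)) (fun i => hH (e i))
  obtain ⟨a, b, ha, hab, h2⟩ := hgap _ hPiC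
  obtain ⟨p, hp1, hp2⟩ := exists_rat_btwn hab
  obtain ⟨q, hq1, hq2⟩ := exists_rat_btwn hp2
  have hpq : p < q := by exact_mod_cast hq1
  have hp0 : 0 ≤ p := by
    have : (0 : ℝ) ≤ p := by linarith
    exact_mod_cast this
  obtain ⟨w, hw, h3, h4⟩ := hHv (p, q) ⟨hp0, hpq⟩
  set i := e.symm (p, q) with hi
  have hei : e i = (p, q) := e.apply_symm_apply _
  have hw' : Val R (H (e i)) w := by
    rw [hei]
    exact hw
  have h5 : Val R (∀ i, H (e i)) w :=
    val_incl (MonoidHom.mulSingle (fun i => H (e i)) i) (by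
      intro a b h
      have := congrFun h i
      simpa using this) hw'
  exact h2 w h5 ⟨by simp only at h3; linarith, by simp only at h4; linarith⟩

end Pool.Agent.W656.VA
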