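import Pool.Agent.H13.L.S8.W656.VB4

/-!
Base change, part 5: integrality at one point of a pencil, given a good point at infinity.
-/

set_option autoImplicit false
set_option linter.unusedSectionVars false

open scoped InnerProductSpace ENNReal
open Filter Topology

namespace Pool.Agent.W656.VA

open Pool.Agent.H80R2
open Pool.Agent.H80R2.BC (L2 GMat vdim IsTr LInv Equi act kerA dk pt vals TorDiv Coef AtR Generic)
open Pool.Agent.H812R3

variable {ι κ κ' μ ν G : Type} [Group G] [Fintype ι] [Fintype κ] [Fintype κ'] [Fintype μ]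
  [Fintype ν]

/-- one step of the comparison of maximizers -/
theorem mx_step {A : GMat κ (ι × μ) G} {B : GMat κ' (ι × ν) G} {θ : ℝ}
    {Φ : Submodule ℂ (μ → ℂ)} {L : (μ → ℂ) →ₗ[ℂ] (ν → ℂ)}
    (hL : ∀ x ∈ kerA A, op (sc ι G L) x ∈ kerA B) {e : μ → ℂ} (he : e ≠ 0)
    (hke : ∀ φ, L φ = 0 → φ ∈ Submodule.span ℂ {e}) (hfe : fd A (Submodule.span ℂ {e}) < θ)
    {Ψ : Submodule ℂ (ν → ℂ)} (hΨ : IsMx B θ Ψ) :
    fd A Φ - θ * Module.finrank ℂ Φ ≤ fd B Ψ - θ * Module.finrank ℂ Ψ ∧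
    (fd B Ψ - θ * Module.finrank ℂ Ψ ≤ fd A Φ - θ * Module.finrank ℂ Φ →
      (∀ φ ∈ Φ, L φ = 0 → φ = 0) ∧ IsMx B θ (Φ.map L) ∧
      Module.finrank ℂ (Φ.map L) = Module.finrank ℂ Φ ∧ fd A Φ = fd B (Φ.map L)) := by
  have h1 := fd_rank A B L Φ (fun x hx => hL x hx.1)
  have h2 := finrank_rank L Φ
  have h3 := hΨ (Φ.map L)
  by_cases hb : Φ ⊓ LinearMap.ker L = ⊥
  · rw [hb, fd_bot, zero_add] at h1
    rw [hb, finrank_bot, zero_add] at h2
    refine ⟨?_, fun h4 => ?_⟩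
    · rw [h2]
      linarith
    · rw [h2] at h4
      refine ⟨?_, ?_, h2.symm, le_antisymm h1 (by linarith)⟩
      · intro φ hφ h0
        have : φ ∈ Φ ⊓ LinearMap.ker L := ⟨hφ, h0⟩
        rwa [hb] at this
      · intro X
        have := hΨ X
        linarith
  · have hle : Φ ⊓ LinearMap.ker L ≤ Submodule.span ℂ {e} := fun φ hφ => hke φ hφ.2
    have hr1 : Module.finrank ℂ (Submodule.span ℂ {e}) = 1 := finrank_span_singleton he
    have hr0 : Module.finrank ℂ (Φ ⊓ LinearMap.ker L : Submodule ℂ (μ → ℂ)) ≠ 0 := by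
      intro h
      exact hb (Submodule.finrank_eq_zero.1 h)
    have hr2 := Submodule.finrank_mono hle
    have hr3 : Module.finrank ℂ (Φ ⊓ LinearMap.ker L : Submodule ℂ (μ → ℂ)) = 1 := by omega
    have h4 := fd_mono A hle
    rw [hr3] at h2
    have h5 : (Module.finrank ℂ Φ : ℝ) = 1 + Module.finrank ℂ (Φ.map L) := by exact_mod_cast h2
    have h6 : fd A Φ - θ * Module.finrank ℂ Φ < fd B Ψ - θ * Module.finrank ℂ Ψ := by
      rw [h5, mul_add, mul_one]
      linarith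
    exact ⟨h6.le, fun h7 => absurd h6 (not_lt.2 h7)⟩

/-- **Stage 1.** -/
theorem stage1 (C : (G : Type) → [Group G] → Prop)
    (hprod : ∀ (G H : Type) [Group G] [Group H], C G → C H → C (G × H))
    (hfree : ∀ (G : Type) [Group G] (m : ℕ), C G → C (Monoid.Coprod G (FreeGroup (Fin m))))
    (R : Subring ℂ)
    (hR : ∀ (G : Type) [Group G], C G → ∀ d : ℕ, IsLcm G d → ∀ v : ℝ, Val R G v →
      ∃ z : ℤ, (d : ℝ) * v = z)
    (hG : C G) {d : ℕ} (hd : IsLcm G d) (Q0 Q1 : GMat κ ι G) (hQ0 : Coef R Q0) (hQ1 : Coef R Q1)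
    (z : ℂ) {N j : ℕ} (hN : 0 < N) (hf : vdim (kerA Q1) < (j : ℝ) / N)
    (hz : (j : ℝ) / N < kz Q0 Q1 z) : ∃ n : ℤ, (d : ℝ) * (N * kz Q0 Q1 z - j) = n := by
  classical
  have hN' : (0 : ℝ) < N := by exact_mod_cast hN
  set θ : ℝ := (j : ℝ) / N with hθ
  have hjθ : (j : ℝ) = N * θ := by rw [hθ]; field_simp
  let W : (l : ℕ) → GMat (κ × Fin l) (ι × Fin (l + 1)) G := fun l => BC.Tm Q0 Q1 l
  -- top maximizers
  have hF : ∀ l, ∃ Φ, IsMx (W l) θ Φ ∧ ∀ Ψ, IsMx (W l) θ Ψ → Ψ ≤ Φ :=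
    fun l => top_exists ⟨_, (mx_vals (W l) N j hN).1⟩
  choose F hF1 hF2 using hF
  let M : ℕ → ℝ := fun l => fd (W l) (F l) - θ * Module.finrank ℂ (F l)
  have hM : ∀ l, (N : ℝ) * M l = vdim (kerA (ct N j (W l))) := by
    intro l
    rw [← mx_value hN (hF1 l)]
    show (N : ℝ) * (fd (W l) (F l) - θ * Module.finrank ℂ (F l)) = _
    rw [hjθ]
    ring
  have hint : ∀ l, ∃ n : ℕ, (d : ℝ) * (N * M l) = n := by
    intro l
    obtain ⟨n, hn⟩ := hR _ (hfree G (ctm ι N j) hG) d (hd.coprod _) _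
      (val_of _ (coef_ct N j (coef_Tm hQ0 hQ1 l)))
    have h1 : (0 : ℝ) ≤ (d : ℝ) * vdim (kerA (ct N j (W l))) := by
      have := vdim_nonneg (kerA (ct N j (W l)))
      positivity
    have h2 : (0 : ℝ) ≤ n := by rw [← hn]; exact h1
    have h3 : 0 ≤ n := by exact_mod_cast h2
    refine ⟨n.toNat, ?_⟩
    rw [hM, hn]
    have : ((n.toNat : ℤ) : ℝ) = n := by rw [Int.toNat_of_nonneg h3]
    exact_mod_cast this.symm
  choose n hn using hint
  have hlast : ∀ l, (Pi.single (Fin.last (l + 1)) 1 : Fin (l + 2) → ℂ) ≠ 0 := by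
    intro l
    simp
  have hstep : ∀ l (Φ : Submodule ℂ (Fin (l + 2) → ℂ)),
      fd (W (l + 1)) Φ - θ * Module.finrank ℂ Φ ≤ M l ∧
      (M l ≤ fd (W (l + 1)) Φ - θ * Module.finrank ℂ Φ →
        (∀ φ ∈ Φ, r0 l φ = 0 → φ = 0) ∧ IsMx (W l) θ (Φ.map (r0 l)) ∧
        Module.finrank ℂ (Φ.map (r0 l)) = Module.finrank ℂ Φ ∧
        fd (W (l + 1)) Φ = fd (W l) (Φ.map (r0 l))) := by
    intro l Φ
    refine mx_step (A := W (l + 1)) (B := W l) (θ := θ) (L := r0 l) ?_ (hlast l) (ker_r0 l) ?_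
      (hF1 l)
    · intro x hx
      have := window Q0 Q1 l 1 0 x hx
      rwa [rr_one_zero] at this
    · show fd (BC.Tm Q0 Q1 (l + 1)) _ < θ
      rw [fd_last]
      exact hf
  have hmono : ∀ l, M (l + 1) ≤ M l := fun l => (hstep l (F (l + 1))).1
  have hd0 : (0 : ℝ) < d := by exact_mod_cast hd.pos
  have hnmono : ∀ l, n (l + 1) ≤ n l := by
    intro l
    have : (n (l + 1) : ℝ) ≤ n l := by
      rw [← hn, ← hn]
      have := hmono l
      gcongr
    exact_mod_cast this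
  have hanti : Antitone n := antitone_nat_of_succ_le hnmono
  -- eventually constant
  obtain ⟨l0, hl0⟩ : ∃ l0, ∀ l, n l0 ≤ n l := by
    have hex : ∃ a, ∃ l, n l = a := ⟨_, 0, rfl⟩
    obtain ⟨l0, hl0⟩ := Nat.find_spec hex
    refine ⟨l0, fun l => ?_⟩
    rw [hl0]
    exact Nat.find_min' hex ⟨l, rfl⟩
  have hconst : ∀ l, l0 ≤ l → M l = M (l + 1) := by
    intro l hl
    have h1 : n l = n (l + 1) :=
      le_antisymm ((hanti hl).trans (hl0 (l + 1))) (hnmono l)
    have h2 : (d : ℝ) * (N * M l) = d * (N * M (l + 1)) := by rw [hn, hn, h1]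
    have h3 := mul_left_cancel₀ hd0.ne' h2
    exact mul_left_cancel₀ hN'.ne' h3
  have hinfo : ∀ l, l0 ≤ l → (∀ φ ∈ F (l + 1), r0 l φ = 0 → φ = 0) ∧
      IsMx (W l) θ ((F (l + 1)).map (r0 l)) ∧
      Module.finrank ℂ ((F (l + 1)).map (r0 l)) = Module.finrank ℂ (F (l + 1)) ∧
      fd (W (l + 1)) (F (l + 1)) = fd (W l) ((F (l + 1)).map (r0 l)) :=
    fun l hl => (hstep l (F (l + 1))).2 (hconst l hl).le
  -- the ranks stabilize
  obtain ⟨l', hl'0, hl'⟩ : ∃ l', l0 ≤ l' ∧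
      Module.finrank ℂ (F (l' + 1)) ≤ Module.finrank ℂ (F (l' + 1 + 1)) := by
    have hex : ∃ a, ∃ l, l0 ≤ l ∧ Module.finrank ℂ (F (l + 1)) = a := ⟨_, l0, le_rfl, rfl⟩
    obtain ⟨l', hl'0, hl'⟩ := Nat.find_spec hex
    refine ⟨l', hl'0, ?_⟩
    rw [hl']
    exact Nat.find_min' hex ⟨l' + 1, by omega, rfl⟩
  set l := l' + 1 with hl
  obtain ⟨hi1, hi2, hi3, hi4⟩ := hinfo l (by omega)
  have hmap : (F (l + 1)).map (r0 l) = F l :=
    Submodule.eq_of_le_of_finrank_le (hF2 l _ hi2) (by omega)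
  rw [hmap] at hi4
  -- inverse of the restriction
  obtain ⟨σ, hσ⟩ : ∃ σ : (Fin (l + 1) → ℂ) →ₗ[ℂ] (Fin (l + 2) → ℂ),
      ∀ φ ∈ F l, σ φ ∈ F (l + 1) ∧ r0 l (σ φ) = φ := by
    let f : F (l + 1) →ₗ[ℂ] F l := (r0 l).restrict (p := F (l + 1)) (q := F l) (by
      intro φ hφ
      rw [← hmap]
      exact Submodule.mem_map_of_mem hφ)
    have hf : Function.Surjective f := by
      rintro ⟨φ, hφ⟩
      have h1 := hφ
      rw [← hmap] at h1
      obtain ⟨φ', h2, h3⟩ := h1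
      exact ⟨⟨φ', h2⟩, Subtype.ext h3⟩
    obtain ⟨g, hg⟩ := f.exists_rightInverse_of_surjective (LinearMap.range_eq_top.2 hf)
    obtain ⟨σ, hσ⟩ := LinearMap.exists_extend ((F (l + 1)).subtype ∘ₗ g)
    refine ⟨σ, fun φ hφ => ?_⟩
    have h1 : σ φ = (g ⟨φ, hφ⟩ : Fin (l + 2) → ℂ) := by
      have := LinearMap.congr_fun hσ ⟨φ, hφ⟩
      exact this
    have h2 := LinearMap.congr_fun hg ⟨φ, hφ⟩
    refine ⟨h1 ▸ (g ⟨φ, hφ⟩).2, ?_⟩
    rw [h1]
    exact congrArg Subtype.val h2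
  have hσ' : ∀ φ ∈ F (l + 1), σ (r0 l φ) = φ := by
    intro φ hφ
    have h1 : r0 l φ ∈ F l := by
      rw [← hmap]
      exact Submodule.mem_map_of_mem hφ
    obtain ⟨h2, h3⟩ := hσ _ h1
    have h4 := hi1 (σ (r0 l φ) - φ) (Submodule.sub_mem _ h2 hφ) (by rw [map_sub, h3, sub_self])
    exact sub_eq_zero.1 h4
  -- `σ` maps the kernel at level `l` to the kernel at level `l + 1`
  have hext : ∀ x ∈ kerA (W l) ⊓ (pt (F l) : Submodule ℂ (L2 ((ι × Fin (l + 1)) × G))),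
      op (sc ι G σ) x ∈ kerA (W (l + 1)) := by
    set K : Submodule ℂ (L2 ((ι × Fin (l + 1)) × G)) := kerA (W l) ⊓ pt (F l) with hK
    set K' : Submodule ℂ (L2 ((ι × Fin (l + 2)) × G)) := kerA (W (l + 1)) ⊓ pt (F (l + 1))
      with hK'
    set K'' : Submodule ℂ (L2 ((ι × Fin (l + 1)) × G)) :=
      K ⊓ K'.comap (op (sc ι G σ) : L2 ((ι × Fin (l + 1)) × G) →ₗ[ℂ] _) with hK''
    have hKc : IsClosed (K : Set (L2 ((ι × Fin (l + 1)) × G))) := isClosed_fd (W l) (F l)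
    have hK'c : IsClosed (K' : Set (L2 ((ι × Fin (l + 2)) × G))) :=
      isClosed_fd (W (l + 1)) (F (l + 1))
    have hKi : LInv K := linv_fd (W l) (F l)
    have hK'i : LInv K' := linv_fd (W (l + 1)) (F (l + 1))
    have hK''c : IsClosed (K'' : Set (L2 ((ι × Fin (l + 1)) × G))) :=
      hKc.inter (hK'c.preimage (op (sc ι G σ)).continuous)
    have hK''i : LInv K'' := by
      apply linv_of
      intro g x hx
      refine ⟨linv_lt hKi _ hx.1, ?_⟩
      show op (sc ι G σ) (lt _ g x) ∈ K'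
      rw [equi_lt (equi_op _)]
      exact linv_lt hK'i _ hx.2
    have hv : vdim K ≤ vdim K'' := by
      have h1 : vdim K = vdim K' := hi4.symm
      rw [h1]
      refine vdim_inj_le hK'c hK'i (op (sc ι G (r0 l))) (equi_op _) hK''c ?_ ?_
      · intro x hx
        have hx1 : op (sc ι G σ) (op (sc ι G (r0 l)) x) = x := by
          ext ⟨⟨p, i⟩, g⟩
          rw [op_sc]
          have : (fun i => op (sc ι G (r0 l)) x ((p, i), g)) = r0 l (fun i => x ((p, i), g)) := by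
            funext i
            rw [op_sc]
          rw [this, hσ' _ (hx.2 p g)]
        refine ⟨⟨?_, ?_⟩, ?_⟩
        · have := window Q0 Q1 l 1 0 x hx.1
          rwa [rr_one_zero] at this
        · intro p g
          have : (fun i => op (sc ι G (r0 l)) x ((p, i), g)) = r0 l (fun i => x ((p, i), g)) := by
            funext i
            rw [op_sc]
          show (fun i => op (sc ι G (r0 l)) x ((p, i), g)) ∈ F l
          rw [this, ← hmap]
          exact Submodule.mem_map_of_mem (hx.2 p g)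
        · show op (sc ι G σ) (op (sc ι G (r0 l)) x) ∈ K'
          rw [hx1]
          exact hx
      · intro x hx h0
        have hx1 : op (sc ι G σ) (op (sc ι G (r0 l)) x) = x := by
          ext ⟨⟨p, i⟩, g⟩
          rw [op_sc]
          have : (fun i => op (sc ι G (r0 l)) x ((p, i), g)) = r0 l (fun i => x ((p, i), g)) := by
            funext i
            rw [op_sc]
          rw [this, hσ' _ (hx.2 p g)]
        rw [← hx1, h0, map_zero]
    have heq : K'' = K := eq_of_vdim hK''c hK''i hKc hKi inf_le_left hv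
    intro x hx
    rw [← heq] at hx
    exact hx.2.1
  -- the operator
  set T : (Fin (l + 1) → ℂ) →ₗ[ℂ] (Fin (l + 1) → ℂ) := (rr l (-z) 1) ∘ₗ σ with hT
  have hTk : ∀ x ∈ kerA (W l) ⊓ (pt (F l) : Submodule ℂ (L2 ((ι × Fin (l + 1)) × G))),
      op (sc ι G T) x ∈ kerA (W l) := by
    intro x hx
    rw [hT, ← op_sc_comp]
    exact window Q0 Q1 l (-z) 1 _ (hext x hx)
  have hctle : kerA (ct N j (W l)) ≤ pt (F l) :=
    (le_pt_vals _).trans (pt_mono (hF2 l _ (mx_vals (W l) N j hN).1))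
  have hct := ct_inv N j (W l) (F l) T hTk hctle
  -- the geometric windows
  have hg1 : geo z (l + 1) ∈ F (l + 1) := by
    refine mem_of_mx (hF1 (l + 1)) (geo_ne z (l + 1)) ?_
    show θ < fd (BC.Tm Q0 Q1 (l + 1)) _
    rw [fd_geo]
    exact hz
  have hg2 : σ (geo z l) = geo z (l + 1) := by
    rw [← r0_geo]
    exact hσ' _ hg1
  have hgl : fd (W l) (Submodule.span ℂ {geo z l}) = kz Q0 Q1 z := fd_geo Q0 Q1 z l'
  have hrank1 : Module.finrank ℂ (Submodule.span ℂ {geo z l}) = 1 :=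
    finrank_span_singleton (geo_ne z l)
  have hge := ct_ge N j (W l) (Submodule.span ℂ {geo z l})
  rw [hgl, hrank1] at hge
  have hpos : 0 < (N : ℝ) * kz Q0 Q1 z - j := by
    rw [div_lt_iff₀ hN'] at hz
    linarith
  have hge' : (N : ℝ) * kz Q0 Q1 z - j ≤ fd (ct N j (W l)) (Submodule.span ℂ {geo z l}) := by
    simpa using hge
  have hval : fd (ct N j (W l)) (Submodule.span ℂ {geo z l}) = N * kz Q0 Q1 z - j := by
    have h1 := ct_eq N j (W l) (Submodule.span ℂ {geo z l})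
    have h2 := vals_ct_le N j (W l) (Submodule.span ℂ {geo z l})
    set V := vals (kerA (ct N j (W l)) ⊓ pt (Submodule.span ℂ {geo z l})) with hV
    have h3 := Submodule.finrank_mono h2
    rw [hrank1] at h3
    rcases Nat.le_one_iff_eq_zero_or_eq_one.1 h3 with h4 | h4
    · have h5 : V = ⊥ := Submodule.finrank_eq_zero.1 h4
      rw [h5, fd_bot, finrank_bot] at h1
      simp only [mul_zero, Nat.cast_zero, sub_zero] at h1
      linarith
    · have h5 : V = Submodule.span ℂ {geo z l} :=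
        Submodule.eq_of_le_of_finrank_le h2 (by omega)
      rw [h1, h5, hgl, hrank1]
      simp
  have hfin := stage2 C hprod hfree R hR (hfree G (ctm ι N j) hG) (hd.coprod (ctm ι N j))
    (ct N j (W l)) (coef_ct N j (coef_Tm hQ0 hQ1 l)) hctle T hct (geo_ne z l)
    (by
      intro φ hφ h0
      have h1 := ker_rr l z (σ φ) h0
      have h2 := (hσ φ hφ).2
      rw [h1, map_smul, r0_geo] at h2
      rw [Submodule.mem_span_singleton]
      exact ⟨_, h2⟩)
    (by
      show rr l (-z) 1 (σ (geo z l)) = 0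
      rw [hg2, rr_geo])
    (by rw [hval]; exact hpos)
  rw [hval] at hfin
  exact hfin

end Pool.Agent.W656.VA
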